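import Pool.Agent.N347.LA.Defs

set_option autoImplicit false

/-! Project LA (helper347), task CB: whole components are large enough (helper407). -/

namespace Pool.Agent.N407.LACOMP_BOUND

open Finset Pool.Agent.N347.LA

open Classical in
theorem comp_bound {V : Type} [Fintype V] (R : V → V → Prop) (hR : ∀ u v, R u v → R v u) (k : ℕ)
    (τ : V → ℕ) (hτ : ∀ v, 1 ≤ τ v) (hd : ∀ v, wdeg R τ v + 1 ≤ 2 * k) (v : V) :
    2 * k ≤ ∑ u ∈ univ.filter (fun u => Relation.ReflTransGen R v u),
      τ u * (2 * k - wdeg R τ u) := by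
  obtain ⟨Y, hY⟩ : ∃ Y : Finset V, Y = univ.filter (fun u => Relation.ReflTransGen R v u) :=
    ⟨_, rfl⟩
  rw [← hY]
  have hmem : ∀ u, u ∈ Y ↔ Relation.ReflTransGen R v u := by
    intro u
    rw [hY, mem_filter]
    simp
  have hv : v ∈ Y := (hmem v).2 Relation.ReflTransGen.refl
  obtain ⟨T, hT⟩ : ∃ T : ℕ, T = ∑ u ∈ Y, τ u := ⟨_, rfl⟩
  have hT1 : 1 ≤ T := by
    rw [hT]
    exact (hτ v).trans (single_le_sum (f := τ) (fun _ _ => Nat.zero_le _) hv)
  have hw : ∀ u ∈ Y, wdeg R τ u + 1 ≤ T := by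
    intro u hu
    have h1 : wdeg R τ u ≤ ∑ u' ∈ Y, (if u = u' then τ u - 1 else τ u') := by
      unfold wdeg
      calc ∑ u', (if R u u' then (if u = u' then τ u - 1 else τ u') else 0)
          = ∑ u' ∈ univ.filter (fun u' => R u u'), (if u = u' then τ u - 1 else τ u') := by
            rw [sum_filter]
        _ ≤ ∑ u' ∈ Y, (if u = u' then τ u - 1 else τ u') := by
            apply sum_le_sum_of_subset
            intro u' hu'
            rw [mem_filter] at hu'
            rw [hmem] at hu ⊢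
            exact hu.tail hu'.2
    have h2 : ∑ u' ∈ Y, (if u = u' then τ u - 1 else τ u') + 1 = T := by
      rw [hT, ← add_sum_erase Y (fun u' => if u = u' then τ u - 1 else τ u') hu,
        ← add_sum_erase Y τ hu]
      have h3 : ∑ u' ∈ Y.erase u, (if u = u' then τ u - 1 else τ u') = ∑ u' ∈ Y.erase u, τ u' := by
        refine sum_congr rfl fun u' hu' => ?_
        rw [if_neg (ne_of_mem_erase hu').symm]
      rw [h3]
      simp only [if_true]
      have := hτ u
      omega
    omega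
  obtain ⟨M, hM⟩ : ∃ M : ℕ, M = max 1 (2 * k + 1 - T) := ⟨_, rfl⟩
  have h1 : T * M ≤ ∑ u ∈ Y, τ u * (2 * k - wdeg R τ u) := by
    rw [hT, sum_mul]
    refine sum_le_sum fun u hu => Nat.mul_le_mul_left _ ?_
    have h2 := hw u hu
    have h3 := hd u
    rw [hM]
    omega
  refine le_trans ?_ h1
  rcases le_total (2 * k) T with h2 | h2
  · have h3 : 1 ≤ M := by rw [hM]; exact le_max_left _ _
    calc 2 * k ≤ T := h2
      _ = T * 1 := (mul_one T).symm
      _ ≤ T * M := Nat.mul_le_mul_left _ h3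
  · have h3 : 2 * k + 1 - T ≤ M := by rw [hM]; exact le_max_right _ _
    refine le_trans ?_ (Nat.mul_le_mul_left T h3)
    obtain ⟨s, hs⟩ : ∃ s, 2 * k = T + s := ⟨2 * k - T, by omega⟩
    rw [hs, show T + s + 1 - T = s + 1 by omega]
    nlinarith

end Pool.Agent.N407.LACOMP_BOUND
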