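import Pool.Agent.N979.CAP.Stm

/-! # Project CAP, NUM: numerical inequalities (helper407) -/

set_option autoImplicit false

namespace Pool.Agent.N407.CAP_NUM

open Real
open Pool.Agent.N979.CAP

theorem Qr_mono {q q' : ℝ} (h0 : 0 ≤ q) (h : q ≤ q') : Qr q ≤ Qr q' := by
  unfold Qr
  gcongr

theorem Qr_one {q : ℝ} (h0 : 0 ≤ q) : 1 ≤ Qr q := by
  have := Qr_mono le_rfl h0
  unfold Qr at this ⊢
  norm_num at this
  linarith

/-- a lower bound for `Qt` on an interval -/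
noncomputable def Lt (q0 q1 : ℝ) : ℝ := (1 - q1 / 4) + q0 ^ 2 * (3 / 16 - 15 / 128 * q1)
  + q0 ^ 4 * (105 / 1024 - 315 / 4096 * q1) + q0 ^ 6 * (1155 / 16384 - 15015 / 262144 * q1)

theorem Qt_low {q q0 q1 : ℝ} (h0 : 0 ≤ q0) (h : q0 ≤ q) (h' : q ≤ q1) (h1 : q1 ≤ 1) :
    Lt q0 q1 ≤ Qt q := by
  have e : Qt q = Lt q q := by unfold Qt Lt; ring
  rw [e]
  unfold Lt
  have e1 : 0 ≤ 3 / 16 - 15 / 128 * q1 := by linarith
  have e2 : 0 ≤ 105 / 1024 - 315 / 4096 * q1 := by linarith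
  have e3 : 0 ≤ 1155 / 16384 - 15015 / 262144 * q1 := by linarith
  have f1 : q0 ^ 2 * (3 / 16 - 15 / 128 * q1) ≤ q ^ 2 * (3 / 16 - 15 / 128 * q) :=
    mul_le_mul (by gcongr) (by linarith) e1 (by positivity)
  have f2 : q0 ^ 4 * (105 / 1024 - 315 / 4096 * q1) ≤ q ^ 4 * (105 / 1024 - 315 / 4096 * q) :=
    mul_le_mul (by gcongr) (by linarith) e2 (by positivity)
  have f3 : q0 ^ 6 * (1155 / 16384 - 15015 / 262144 * q1) ≤
      q ^ 6 * (1155 / 16384 - 15015 / 262144 * q) :=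
    mul_le_mul (by gcongr) (by linarith) e3 (by positivity)
  linarith

theorem chkA {q r : ℝ} (q0 q1 r1 : ℝ) (hq0 : 0 ≤ q0) (h0 : q0 ≤ q) (h1 : q ≤ q1) (hq1 : q1 ≤ 1)
    (hr : 0 ≤ r) (hr2 : r ^ 2 = 1 - q ^ 2) (hr1 : 0 ≤ r1) (hr12 : r1 ^ 2 ≤ 1 - q1 ^ 2)
    (hc : 2 * (1 - q0 / 2) ≤ 43 / 9 * (1 - q1) * r1 * Qr q0 ^ 2) :
    2 * (1 - q / 2) ≤ 43 / 9 * (1 - q) * r * Qr q ^ 2 := by
  have e1 : r1 ≤ r := by
    apply le_of_sq_le_sq _ hr
    rw [hr2]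
    nlinarith
  have e2 : Qr q0 ≤ Qr q := Qr_mono hq0 h0
  have e3 : 0 ≤ Qr q0 := zero_le_one.trans (Qr_one hq0)
  calc 2 * (1 - q / 2) ≤ 2 * (1 - q0 / 2) := by linarith
    _ ≤ 43 / 9 * (1 - q1) * r1 * Qr q0 ^ 2 := hc
    _ ≤ 43 / 9 * (1 - q) * r * Qr q ^ 2 := by
      have e4 : 0 ≤ 1 - q1 := by linarith
      have e5 : 0 ≤ 1 - q := by linarith
      gcongr

theorem chkB {q r : ℝ} (q0 q1 r1 : ℝ) (hq0 : 0 ≤ q0) (h0 : q0 ≤ q) (h1 : q ≤ q1) (hq1 : q1 ≤ 1)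
    (hr : 0 ≤ r) (hr2 : r ^ 2 = 1 - q ^ 2) (hr1 : 0 ≤ r1) (hr12 : r1 ^ 2 ≤ 1 - q1 ^ 2)
    (hL : 0 ≤ Lt q0 q1)
    (hc : 2 * (1 + q1 / 2) ≤ 86 / 25 * (1 + q0) * r1 * Lt q0 q1 ^ 2) :
    2 * (1 + q / 2) ≤ 86 / 25 * (1 + q) * r * Qt q ^ 2 := by
  have e1 : r1 ≤ r := by
    apply le_of_sq_le_sq _ hr
    rw [hr2]
    nlinarith
  have e2 : Lt q0 q1 ≤ Qt q := Qt_low hq0 h0 h1 hq1
  calc 2 * (1 + q / 2) ≤ 2 * (1 + q1 / 2) := by linarith
    _ ≤ 86 / 25 * (1 + q0) * r1 * Lt q0 q1 ^ 2 := hc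
    _ ≤ 86 / 25 * (1 + q) * r * Qt q ^ 2 := by
      have e3 : 0 ≤ q := hq0.trans h0
      gcongr

theorem allA {q r : ℝ} (h0 : 0 ≤ q) (h1 : q ≤ 7976 / 10000) (hr : 0 ≤ r)
    (hr2 : r ^ 2 = 1 - q ^ 2) : 2 * (1 - q / 2) ≤ 43 / 9 * (1 - q) * r * Qr q ^ 2 := by
  rcases le_total q (512 / 1000) with h | h
  · exact chkA 0 (512 / 1000) (8589 / 10000) le_rfl h0 h (by norm_num) hr hr2 (by norm_num)
      (by norm_num) (by norm_num [Qr])
  rcases le_total q (699 / 1000) with h' | h'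
  · exact chkA (512 / 1000) (699 / 1000) (7151 / 10000) (by norm_num) h h' (by norm_num) hr hr2
      (by norm_num) (by norm_num) (by norm_num [Qr])
  rcases le_total q (768 / 1000) with h'' | h''
  · exact chkA (699 / 1000) (768 / 1000) (6404 / 10000) (by norm_num) h' h'' (by norm_num) hr hr2
      (by norm_num) (by norm_num) (by norm_num [Qr])
  rcases le_total q (794 / 1000) with h3 | h3
  · exact chkA (768 / 1000) (794 / 1000) (6079 / 10000) (by norm_num) h'' h3 (by norm_num) hr hr2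
      (by norm_num) (by norm_num) (by norm_num [Qr])
  · exact chkA (794 / 1000) (7976 / 10000) (6031 / 10000) (by norm_num) h3 h1 (by norm_num) hr hr2
      (by norm_num) (by norm_num) (by norm_num [Qr])

theorem allB {q r : ℝ} (h0 : 0 ≤ q) (h1 : q ≤ 7976 / 10000) (hr : 0 ≤ r)
    (hr2 : r ^ 2 = 1 - q ^ 2) : 2 * (1 + q / 2) ≤ 86 / 25 * (1 + q) * r * Qt q ^ 2 := by
  rcases le_total q (441 / 1000) with h | h
  · exact chkB 0 (441 / 1000) (8975 / 10000) le_rfl h0 h (by norm_num) hr hr2 (by norm_num)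
      (by norm_num) (by norm_num [Lt]) (by norm_num [Lt])
  rcases le_total q (674 / 1000) with h' | h'
  · exact chkB (441 / 1000) (674 / 1000) (7387 / 10000) (by norm_num) h h' (by norm_num) hr hr2
      (by norm_num) (by norm_num) (by norm_num [Lt]) (by norm_num [Lt])
  rcases le_total q (765 / 1000) with h'' | h''
  · exact chkB (674 / 1000) (765 / 1000) (6440 / 10000) (by norm_num) h' h'' (by norm_num) hr hr2
      (by norm_num) (by norm_num) (by norm_num [Lt]) (by norm_num [Lt])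
  · exact chkB (765 / 1000) (7976 / 10000) (6031 / 10000) (by norm_num) h'' h1 (by norm_num) hr hr2
      (by norm_num) (by norm_num) (by norm_num [Lt]) (by norm_num [Lt])

/-- the change of variables -/
theorem vars {s : ℝ} (h0 : 0 ≤ s) (h1 : s ≤ 471 / 500) : ∃ q c : ℝ, q = s ^ 2 / (2 - s ^ 2) ∧
    c = √(1 - s ^ 2) ∧ 0 ≤ q ∧ q ≤ 7976 / 10000 ∧ 0 < c ∧ c ^ 2 = 1 - s ^ 2 ∧
    ((1 + q) * c) ^ 2 = 1 - q ^ 2 ∧ 1 - q / 2 = (1 + q) * (1 - 3 * s ^ 2 / 4) ∧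
    1 + q / 2 = (1 + q) * (1 - s ^ 2 / 4) ∧ 1 - q = c ^ 2 * (1 + q) := by
  have hu0 : 0 ≤ s ^ 2 := sq_nonneg s
  have hu1 : s ^ 2 ≤ (471 / 500) ^ 2 := by gcongr
  have h2 : 0 < 2 - s ^ 2 := by norm_num at hu1; linarith
  have h3 : 0 < 1 - s ^ 2 := by norm_num at hu1; linarith
  have hc2 : √(1 - s ^ 2) ^ 2 = 1 - s ^ 2 := Real.sq_sqrt h3.le
  refine ⟨s ^ 2 / (2 - s ^ 2), √(1 - s ^ 2), rfl, rfl, by positivity, ?_, Real.sqrt_pos.2 h3, hc2,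
    ?_, ?_, ?_, ?_⟩
  · rw [div_le_iff₀ h2]
    norm_num at hu1 ⊢
    linarith
  · rw [mul_pow, hc2]; field_simp; ring
  · field_simp; ring
  · field_simp; ring
  · rw [hc2]; field_simp; ring

theorem main (h : S_LOW) : S_NUM := by
  have hpi := Real.pi_pos
  have key : ∀ s : ℝ, 0 ≤ s → s ≤ 471 / 500 → ∀ q : ℝ, q = s ^ 2 / (2 - s ^ 2) →
      √(1 + q) * (π / 2) * Qr q ≤ Ir s ∧ √(1 + q) * (π / 2) * Qt q ≤ It s :=
    fun s h0 h1 q hq => h s h0 (by linarith) q hq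
  have hQt : ∀ q : ℝ, 0 ≤ q → q ≤ 7976 / 10000 → 1 - q / 4 ≤ Qt q := by
    intro q h0 h1
    have := Qt_low (q := q) (q0 := 0) (q1 := q) le_rfl h0 le_rfl (by linarith)
    unfold Lt at this
    norm_num at this
    linarith
  constructor
  · intro s h0 h1
    obtain ⟨q, c, hq, hc, hq0, hq1, -⟩ := vars h0 h1
    refine le_trans ?_ (key s h0 h1 q hq).1
    have e1 : 1 ≤ √(1 + q) := Real.one_le_sqrt.2 (by linarith)
    have e2 := Qr_one hq0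
    calc π / 2 = 1 * (π / 2) * 1 := by ring
      _ ≤ √(1 + q) * (π / 2) * Qr q := by gcongr
  · intro s h0 h1
    obtain ⟨q, c, hq, hc, hq0, hq1, -⟩ := vars h0 h1
    refine le_trans ?_ (key s h0 h1 q hq).2
    have e1 := hQt q hq0 hq1
    have e2 : 1 ≤ √(1 + q) * Qt q := by
      have e3 : 0 ≤ √(1 + q) * Qt q := mul_nonneg (Real.sqrt_nonneg _) (by linarith)
      have e4 : 1 ≤ (√(1 + q) * Qt q) ^ 2 := by
        rw [mul_pow, Real.sq_sqrt (by linarith)]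
        have e5 : (1 - q / 4) ^ 2 ≤ Qt q ^ 2 := by
          apply pow_le_pow_left₀ (by linarith) e1
        nlinarith [mul_nonneg hq0 hq0, mul_nonneg (mul_nonneg hq0 hq0) hq0]
      nlinarith
    calc π / 2 = (π / 2) * 1 := by ring
      _ ≤ (π / 2) * (√(1 + q) * Qt q) := by gcongr
      _ = √(1 + q) * (π / 2) * Qt q := by ring
  · intro s h0 h1
    obtain ⟨q, c, hq, hc, hq0, hq1, hc0, hc2, hr, e1, e2, e3⟩ := vars h0 h1
    have hI := (key s h0 h1 q hq).1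
    have hA := allA hq0 hq1 (r := (1 + q) * c) (by positivity) hr
    have hQ := Qr_one hq0
    rw [← hc]
    have hq2 : 0 < 1 + q := by linarith
    have f1 : 2 * (1 - 3 * s ^ 2 / 4) ≤ 43 / 9 * c ^ 3 * (1 + q) * Qr q ^ 2 := by
      rw [e1, e3] at hA
      refine le_of_mul_le_mul_left ?_ hq2
      calc (1 + q) * (2 * (1 - 3 * s ^ 2 / 4)) = 2 * ((1 + q) * (1 - 3 * s ^ 2 / 4)) := by ring
        _ ≤ _ := hA
        _ = _ := by ring
    have hJ : 0 < √(1 + q) * (π / 2) * Qr q := by positivity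
    have hI0 : 0 < Ir s := hJ.trans_le hI
    have f2 : (1 + q) * (π ^ 2 / 4) * Qr q ^ 2 ≤ Ir s ^ 2 := by
      have f3 := pow_le_pow_left₀ hJ.le hI 2
      rw [mul_pow, mul_pow, Real.sq_sqrt hq2.le] at f3
      calc (1 + q) * (π ^ 2 / 4) * Qr q ^ 2 = (1 + q) * (π / 2) ^ 2 * Qr q ^ 2 := by ring
        _ ≤ _ := f3
    have f4 : π / c * (π / 2 - 3 * π * s ^ 2 / 8) / (c * Ir s) ^ 2 ≤ 43 / 9 := by
      rw [div_le_iff₀ (by positivity)]
      have f5 : π / c * (π / 2 - 3 * π * s ^ 2 / 8) = π ^ 2 / 4 * (2 * (1 - 3 * s ^ 2 / 4)) / c := by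
        ring
      rw [f5, div_le_iff₀ hc0]
      calc π ^ 2 / 4 * (2 * (1 - 3 * s ^ 2 / 4)) ≤ π ^ 2 / 4 * (43 / 9 * c ^ 3 * (1 + q) * Qr q ^ 2) := by
            gcongr
        _ = 43 / 9 * c ^ 3 * ((1 + q) * (π ^ 2 / 4) * Qr q ^ 2) := by ring
        _ ≤ 43 / 9 * c ^ 3 * Ir s ^ 2 := by gcongr
        _ = 43 / 9 * (c * Ir s) ^ 2 * c := by ring
    linarith
  · intro s h0 h1
    obtain ⟨q, c, hq, hc, hq0, hq1, hc0, hc2, hr, e1, e2, e3⟩ := vars h0 h1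
    have hI := (key s h0 h1 q hq).2
    have hA := allB hq0 hq1 (r := (1 + q) * c) (by positivity) hr
    have hQ := hQt q hq0 hq1
    have hQ0 : 0 < Qt q := by linarith
    rw [← hc]
    have hq2 : 0 < 1 + q := by linarith
    have f1 : 2 * (1 - s ^ 2 / 4) ≤ 86 / 25 * c * (1 + q) * Qt q ^ 2 := by
      rw [e2] at hA
      refine le_of_mul_le_mul_left ?_ hq2
      calc (1 + q) * (2 * (1 - s ^ 2 / 4)) = 2 * ((1 + q) * (1 - s ^ 2 / 4)) := by ring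
        _ ≤ _ := hA
        _ = _ := by ring
    have hJ : 0 < √(1 + q) * (π / 2) * Qt q := by positivity
    have hI0 : 0 < It s := hJ.trans_le hI
    have f2 : (1 + q) * (π ^ 2 / 4) * Qt q ^ 2 ≤ It s ^ 2 := by
      have f3 := pow_le_pow_left₀ hJ.le hI 2
      rw [mul_pow, mul_pow, Real.sq_sqrt hq2.le] at f3
      calc (1 + q) * (π ^ 2 / 4) * Qt q ^ 2 = (1 + q) * (π / 2) ^ 2 * Qt q ^ 2 := by ring
        _ ≤ _ := f3
    have f4 : π / c * (π / 2 - π * s ^ 2 / 8) / It s ^ 2 ≤ 86 / 25 := by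
      rw [div_le_iff₀ (by positivity)]
      have f5 : π / c * (π / 2 - π * s ^ 2 / 8) = π ^ 2 / 4 * (2 * (1 - s ^ 2 / 4)) / c := by
        ring
      rw [f5, div_le_iff₀ hc0]
      calc π ^ 2 / 4 * (2 * (1 - s ^ 2 / 4)) ≤ π ^ 2 / 4 * (86 / 25 * c * (1 + q) * Qt q ^ 2) := by
            gcongr
        _ = 86 / 25 * c * ((1 + q) * (π ^ 2 / 4) * Qt q ^ 2) := by ring
        _ ≤ 86 / 25 * c * It s ^ 2 := by gcongr
        _ = 86 / 25 * It s ^ 2 * c := by ring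
    linarith

end Pool.Agent.N407.CAP_NUM
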