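import Pool.Agent.N661.QB.Stm
import Pool.Agent.N661.BR.Base

/-!
Project QB (helper661, MP_07c750_an), task ERG0: convex combinations of translates of a bounded
function converge to its mean in the case of an ergodic law (helper407).
-/

set_option autoImplicit false
open MeasureTheory Filter Topology

namespace Pool.Agent.N407.QBERG0

noncomputable section

section Abs

variable {X : Type*} [MeasurableSpace X] {μ : Measure X} [IsProbabilityMeasure μ]

theorem coe_sum {ι : Type*} (s : Finset ι) (g : ι → Lp ℝ 2 μ) :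
    (↑(∑ i ∈ s, g i) : X → ℝ) =ᵐ[μ] fun f => ∑ i ∈ s, (g i : X → ℝ) f := by
  classical
  induction s using Finset.induction_on with
  | empty =>
    simp only [Finset.sum_empty]
    exact Lp.coeFn_zero ℝ 2 μ
  | insert i s hi ih =>
    rw [Finset.sum_insert hi]
    filter_upwards [Lp.coeFn_add (g i) (∑ i ∈ s, g i), ih] with f h1 h2
    rw [h1, Finset.sum_insert hi, Pi.add_apply, h2]

theorem norm_sq_eq (g : Lp ℝ 2 μ) : ‖g‖ ^ 2 = ∫ f, (g : X → ℝ) f ^ 2 ∂μ := by
  rw [← real_inner_self_eq_norm_sq, L2.inner_def]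
  refine integral_congr_ae (Eventually.of_forall fun f => ?_)
  show inner ℝ (g f) (g f) = g f ^ 2
  rw [real_inner_self_eq_norm_sq, Real.norm_eq_abs, sq_abs]

/-- the integral as an inner product -/
def one (μ : Measure X) [IsProbabilityMeasure μ] : Lp ℝ 2 μ :=
  indicatorConstLp 2 MeasurableSet.univ (measure_ne_top μ _) (1 : ℝ)

theorem inner_one (g : Lp ℝ 2 μ) : inner ℝ (one μ) g = ∫ f, (g : X → ℝ) f ∂μ := by
  unfold one
  rw [L2.inner_indicatorConstLp_one, Measure.restrict_univ]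

/-- **mean ergodic theorem**, for the closed convex hull of an orbit -/
theorem erg (T : ℂ → X → X) (hT : ∀ x, MeasurePreserving (T x) μ μ)
    (hadd : ∀ x y f, T x (T y f) = T (x + y) f)
    (herg : ∀ A : Set X, MeasurableSet A → (∀ x, T x ⁻¹' A =ᵐ[μ] A) → μ A = 0 ∨ μ A = 1)
    (a : X → ℝ) (ha : Measurable a) (C : ℝ) (hC : ∀ f, |a f| ≤ C) (ε : ℝ) (hε : 0 < ε) :
    ∃ (m : ℕ) (x : Fin m → ℂ) (p : Fin m → ℝ), (∀ j, 0 ≤ p j) ∧ ∑ j, p j = 1 ∧
      ∫ f, (∑ j, p j * a (T (x j) f) - ∫ g, a g ∂μ) ^ 2 ∂μ ≤ ε := by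
  have hmem : MemLp a 2 μ := MemLp.of_bound ha.aestronglyMeasurable C
    (Eventually.of_forall fun f => by rw [Real.norm_eq_abs]; exact hC f)
  obtain ⟨A, hA⟩ : ∃ A : Lp ℝ 2 μ, A = hmem.toLp a := ⟨_, rfl⟩
  obtain ⟨U, hU⟩ : ∃ U : ℂ → (Lp ℝ 2 μ →ₗᵢ[ℝ] Lp ℝ 2 μ),
      U = fun x => Lp.compMeasurePreservingₗᵢ ℝ (T x) (hT x) := ⟨_, rfl⟩
  have hUc : ∀ x g, (U x g : X → ℝ) =ᵐ[μ] (g : X → ℝ) ∘ T x := by
    intro x g
    rw [hU]
    exact Lp.coeFn_compMeasurePreserving g (hT x)
  have hUA : ∀ x, (U x A : X → ℝ) =ᵐ[μ] fun f => a (T x f) := by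
    intro x
    refine (hUc x A).trans ?_
    have h1 : (A : X → ℝ) =ᵐ[μ] a := by rw [hA]; exact hmem.coeFn_toLp
    exact (hT x).quasiMeasurePreserving.ae_eq_comp h1
  obtain ⟨S, hS⟩ : ∃ S : Set (Lp ℝ 2 μ), S = Set.range fun x => U x A := ⟨_, rfl⟩
  obtain ⟨K, hK⟩ : ∃ K : Set (Lp ℝ 2 μ), K = closure (convexHull ℝ S) := ⟨_, rfl⟩
  have hKc : IsClosed K := by rw [hK]; exact isClosed_closure
  have hKx : Convex ℝ K := by rw [hK]; exact (convex_convexHull ℝ S).closure
  have hSK : S ⊆ K := by rw [hK]; exact (subset_convexHull ℝ S).trans subset_closure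
  have hmin : ∀ B : Set (Lp ℝ 2 μ), IsClosed B → Convex ℝ B → S ⊆ B → K ⊆ B := by
    intro B h1 h2 h3
    rw [hK]
    exact closure_minimal (convexHull_min h3 h2) h1
  have hKne : K.Nonempty := ⟨U 0 A, hSK (by rw [hS]; exact ⟨0, rfl⟩)⟩
  have hUU : ∀ y x, U y (U x A) = U (x + y) A := by
    intro y x
    apply Lp.ext
    refine (hUc y _).trans ?_
    refine ((hT y).quasiMeasurePreserving.ae_eq_comp (hUA x)).trans ?_
    refine EventuallyEq.trans ?_ (hUA (x + y)).symm
    refine Eventually.of_forall fun f => ?_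
    show a (T x (T y f)) = a (T (x + y) f)
    rw [hadd]
  have hUK : ∀ y, ∀ k ∈ K, U y k ∈ K := by
    intro y
    have h1 : K ⊆ (U y) ⁻¹' K := by
      apply hmin
      · exact hKc.preimage (U y).continuous
      · exact hKx.linear_preimage (U y).toLinearMap
      · intro s hs
        rw [hS] at hs
        obtain ⟨x, rfl⟩ := hs
        show U y (U x A) ∈ K
        rw [hUU]
        exact hSK (by rw [hS]; exact ⟨_, rfl⟩)
    exact fun k hk => h1 hk
  -- the element of minimal norm
  obtain ⟨b, hbK, hb⟩ := exists_norm_eq_iInf_of_complete_convex hKne hKc.isComplete hKx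
    (0 : Lp ℝ 2 μ)
  rw [norm_eq_iInf_iff_real_inner_le_zero hKx hbK] at hb
  have hUb : ∀ y, U y b = b := by
    intro y
    have h1 := hb (U y b) (hUK y b hbK)
    rw [zero_sub, inner_neg_left, inner_sub_right, real_inner_self_eq_norm_sq] at h1
    have h2 := norm_sub_sq_real (U y b) b
    rw [LinearIsometry.norm_map, real_inner_comm] at h2
    have h3 : ‖U y b - b‖ ^ 2 ≤ 0 := by linarith
    have h4 : ‖U y b - b‖ = 0 := by
      have := sq_nonneg ‖U y b - b‖
      exact pow_eq_zero_iff two_ne_zero |>.1 (le_antisymm h3 this)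
    exact sub_eq_zero.1 (norm_eq_zero.1 h4)
  have hbT : ∀ y, (b : X → ℝ) ∘ T y =ᵐ[μ] b := by
    intro y
    have h1 := hUc y b
    rw [hUb y] at h1
    exact h1.symm
  have hbm : Measurable (b : X → ℝ) := (Lp.stronglyMeasurable b).measurable
  -- it is constant
  obtain ⟨c, hc⟩ := exists_eventuallyEq_const_of_forall_separating (l := ae μ)
    (f := (b : X → ℝ)) MeasurableSet (fun V hV => by
      have h1 : μ ((b : X → ℝ) ⁻¹' V) = 0 ∨ μ ((b : X → ℝ) ⁻¹' V) = 1 := by
        refine herg _ (hbm hV) fun x => ?_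
        have h2 : T x ⁻¹' ((b : X → ℝ) ⁻¹' V) = ((b : X → ℝ) ∘ T x) ⁻¹' V := rfl
        rw [h2]
        exact (hbT x).preimage V
      rcases h1 with h1 | h1
      · right
        rw [ae_iff]
        refine measure_mono_null (fun f hf => ?_) h1
        exact not_not.1 hf
      · left
        have h2 := (prob_compl_eq_zero_iff (μ := μ) (hbm hV)).2 h1
        rw [ae_iff]
        exact h2)
  obtain ⟨mean, hmean⟩ : ∃ mean : ℝ, mean = ∫ g, a g ∂μ := ⟨_, rfl⟩
  have hKi : ∀ k ∈ K, inner ℝ (one μ) k = mean := by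
    have h1 : K ⊆ {k | inner ℝ (one μ) k = mean} := by
      apply hmin
      · exact isClosed_eq (by fun_prop) continuous_const
      · refine convex_hyperplane (f := fun k => inner ℝ (one μ) k) ⟨?_, ?_⟩ mean
        · intro x y
          exact inner_add_right _ _ _
        · intro r x
          rw [inner_smul_right]
          rfl
      · intro s hs
        rw [hS] at hs
        obtain ⟨x, rfl⟩ := hs
        show inner ℝ (one μ) (U x A) = mean
        rw [inner_one, integral_congr_ae (hUA x), hmean,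
          ← integral_map (hT x).measurable.aemeasurable ha.aestronglyMeasurable, (hT x).map_eq]
    exact fun k hk => h1 hk
  have hcm : c = mean := by
    have h1 := hKi b hbK
    rw [inner_one, integral_congr_ae hc] at h1
    simpa using h1
  -- approximation
  rw [hK] at hbK
  obtain ⟨k, hk, hkb⟩ := Metric.mem_closure_iff.1 hbK (√ε) (Real.sqrt_pos.2 hε)
  obtain ⟨ι, hι, w, z, hw0, hw1, hz, hwz⟩ := mem_convexHull_iff_exists_fintype.1 hk
  have hz' : ∀ i, ∃ x, U x A = z i := by
    intro i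
    have := hz i
    rw [hS] at this
    exact this
  choose x hx using hz'
  obtain ⟨e⟩ : Nonempty (Fin (Fintype.card ι) ≃ ι) := ⟨(Fintype.equivFin ι).symm⟩
  refine ⟨Fintype.card ι, fun j => x (e j), fun j => w (e j), fun j => hw0 _, ?_, ?_⟩
  · rw [Equiv.sum_comp e w, hw1]
  · have h1 : ‖k - b‖ ^ 2 ≤ ε := by
      rw [dist_eq_norm, norm_sub_rev] at hkb
      have h2 := pow_le_pow_left₀ (norm_nonneg _) hkb.le 2
      rwa [Real.sq_sqrt hε.le] at h2
    rw [norm_sq_eq] at h1
    refine le_trans (le_of_eq ?_) h1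
    refine integral_congr_ae ?_
    have h2 : (k : X → ℝ) =ᵐ[μ] fun f => ∑ i, w i * a (T (x i) f) := by
      rw [← hwz]
      refine (coe_sum Finset.univ fun i => w i • z i).trans ?_
      have h3 : ∀ i, (↑(w i • z i) : X → ℝ) =ᵐ[μ] fun f => w i * a (T (x i) f) := by
        intro i
        rw [← hx i]
        filter_upwards [Lp.coeFn_smul (w i) (U (x i) A), hUA (x i)] with f h4 h5
        rw [h4, Pi.smul_apply, h5, smul_eq_mul]
      have h4 : ∀ᵐ f ∂μ, ∀ i, (↑(w i • z i) : X → ℝ) f = w i * a (T (x i) f) :=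
        ae_all_iff.2 h3
      filter_upwards [h4] with f h5
      exact Finset.sum_congr rfl fun i _ => h5 i
    filter_upwards [Lp.coeFn_sub k b, h2, hc] with f h3 h4 h5
    rw [h3, Pi.sub_apply, h4, h5, Function.const_apply, hcm, hmean,
      Equiv.sum_comp e fun i => w i * a (T (x i) f)]

end Abs

open Pool.Agent.N661.BR (MW shift IsStationary IsErgodic)
open Pool.Agent.N661.QB (S_ERG0)

theorem shift_shift (x y : ℂ) (f : MW) : shift x (shift y f) = shift (x + y) f := by
  apply Subtype.ext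
  funext z
  show f.1 (z + x + y) = f.1 (z + (x + y))
  rw [add_assoc]

theorem ERG0 : S_ERG0 := by
  intro μ hμ hs he a ha hC ε hε
  obtain ⟨C, hC⟩ := hC
  exact erg shift (fun x => ⟨Pool.Agent.N661.BR.meas_shift x, hs x⟩) shift_shift he a ha C hC ε hε

end

end Pool.Agent.N407.QBERG0
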