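import Pool.Agent.N657.QR.Stm

/-!
# Project QR, APP: approximation by functions with finite support (helper407)
-/

set_option autoImplicit false

open Filter Topology

namespace Pool.Agent.N407.QR_APP

open Pool.Agent.N657.QR

/-- a dominated convergence -/
theorem conv {β : Type*} {F : β → ℝ} (g : ℕ → β → ℝ) (hF : Summable F)
    (h1 : ∀ k n, g k n = F n ∨ g k n = 0) (h2 : ∀ n, ∀ᶠ k in atTop, g k n = F n) :
    Tendsto (fun k => ∑' n, g k n) atTop (𝓝 (∑' n, F n)) := by
  refine tendsto_tsum_of_dominated_convergence (bound := fun n => ‖F n‖) hF.norm ?_ ?_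
  · intro n
    exact tendsto_const_nhds.congr' ((h2 n).mono fun k hk => hk.symm)
  · refine Eventually.of_forall fun k n => ?_
    rcases h1 k n with h | h
    · rw [h]
    · rw [h, norm_zero]; exact norm_nonneg _

theorem main (hB : S_BAS) : S_APP := by
  intro V _ _ ψ hψ
  classical
  obtain ⟨f, hf⟩ : ∃ f : ℕ → (V → ℤ) → ℝ, f = fun (k : ℕ) n =>
      if n ∈ Finset.Icc (fun _ : V => -(k : ℤ)) (fun _ : V => (k : ℤ)) then ψ n else 0 := ⟨_, rfl⟩
  have h1 : ∀ k n, f k n = ψ n ∨ f k n = 0 := by
    intro k n
    rw [hf]
    dsimp only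
    split_ifs
    · left; rfl
    · right; rfl
  have h2 : ∀ n, ∀ᶠ k in atTop, f k n = ψ n := by
    intro n
    filter_upwards [eventually_ge_atTop (∑ x, (n x).natAbs)] with k hk
    rw [hf]
    dsimp only
    rw [if_pos]
    rw [Finset.mem_Icc]
    have h3 : ∀ x, |n x| ≤ (k : ℤ) := by
      intro x
      have h4 : (n x).natAbs ≤ ∑ x, (n x).natAbs :=
        Finset.single_le_sum (f := fun x => (n x).natAbs) (fun _ _ => Nat.zero_le _)
          (Finset.mem_univ x)
      have h5 : (n x).natAbs ≤ k := h4.trans hk
      rw [Int.abs_eq_natAbs]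
      exact_mod_cast h5
    constructor
    · intro x
      exact (abs_le.mp (h3 x)).1
    · intro x
      exact (abs_le.mp (h3 x)).2
  refine ⟨f, ?_, h1, ?_, ?_, ?_, ?_, ?_⟩
  · intro k
    refine (Finset.finite_toSet (Finset.Icc (fun _ : V => -(k : ℤ)) (fun _ : V => (k : ℤ)))).subset ?_
    intro n hn
    rw [Function.mem_support, hf] at hn
    dsimp only at hn
    rw [Finset.mem_coe]
    by_contra h
    exact hn (if_neg h)
  · refine conv (fun k n => f k n ^ 2) hψ.1 ?_ ?_
    · intro k n
      rcases h1 k n with h | h
      · left; rw [h]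
      · right; rw [h]; norm_num
    · intro n
      filter_upwards [h2 n] with k hk
      rw [hk]
  · refine conv (fun k n => Pool.Agent.N657.QR.sq n * f k n ^ 2) hψ.2 ?_ ?_
    · intro k n
      rcases h1 k n with h | h
      · left; rw [h]
      · right; rw [h]; norm_num
    · intro n
      filter_upwards [h2 n] with k hk
      rw [hk]
  · intro K ν
    refine conv (fun k n => pot K ν n * f k n ^ 2) (hB.posum K ν ψ hψ) ?_ ?_
    · intro k n
      rcases h1 k n with h | h
      · left; rw [h]
      · right; rw [h]; norm_num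
    · intro n
      filter_upwards [h2 n] with k hk
      rw [hk]
  · intro x y
    refine conv (fun k n => f k (hp x y n) * f k n) (hB.crsum x y ψ hψ.1) ?_ ?_
    · intro k n
      rcases h1 k n with h | h
      · rcases h1 k (hp x y n) with h' | h'
        · left; rw [h, h']
        · right; rw [h', zero_mul]
      · right; rw [h, mul_zero]
    · intro n
      filter_upwards [h2 n, h2 (hp x y n)] with k hk hk'
      rw [hk, hk']
  · intro x
    refine conv (fun k n => f k (n + dl x) * f k n) (hB.xxsum x ψ hψ.1) ?_ ?_
    · intro k n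
      rcases h1 k n with h | h
      · rcases h1 k (n + dl x) with h' | h'
        · left; rw [h, h']
        · right; rw [h', zero_mul]
      · right; rw [h, mul_zero]
    · intro n
      filter_upwards [h2 n, h2 (n + dl x)] with k hk hk'
      rw [hk, hk']

end Pool.Agent.N407.QR_APP
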