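import Pool.Agent.N657.QR.Stm

/-!
# Project QR, UN: real ground states are unique up to sign (helper407)
-/

set_option autoImplicit false

open Filter Topology

namespace Pool.Agent.N407.QR_UN

open Pool.Agent.N657.QR

variable {V : Type} [Fintype V] [DecidableEq V]

theorem sq_nn (n : V → ℤ) : 0 ≤ Pool.Agent.N657.QR.sq n :=
  Finset.sum_nonneg fun _ _ => sq_nonneg _

theorem tot_hp (x y : V) (n : V → ℤ) : tot (hp x y n) = tot n := by
  simp [tot, hp, dl, Finset.sum_add_distrib, Finset.sum_sub_distrib]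

theorem FE_smul {a : (V → ℤ) → ℝ} (ha : FE a) (c : ℝ) : FE (fun n => c * a n) := by
  constructor
  · refine (ha.1.mul_left (c ^ 2)).congr fun n => ?_
    ring
  · refine (ha.2.mul_left (c ^ 2)).congr fun n => ?_
    ring

theorem FE_add {a b : (V → ℤ) → ℝ} (ha : FE a) (hb : FE b) : FE (fun n => a n + b n) := by
  constructor
  · refine Summable.of_nonneg_of_le (fun n => sq_nonneg _) (fun n => ?_)
      ((ha.1.mul_left 2).add (hb.1.mul_left 2))
    nlinarith [sq_nonneg (a n - b n)]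
  · refine Summable.of_nonneg_of_le (fun n => mul_nonneg (sq_nn n) (sq_nonneg _)) (fun n => ?_)
      ((ha.2.mul_left 2).add (hb.2.mul_left 2))
    have h1 : (a n + b n) ^ 2 ≤ 2 * a n ^ 2 + 2 * b n ^ 2 := by nlinarith [sq_nonneg (a n - b n)]
    have h2 := mul_le_mul_of_nonneg_left h1 (sq_nn n)
    linarith

theorem FE_sub {a b : (V → ℤ) → ℝ} (ha : FE a) (hb : FE b) : FE (fun n => a n - b n) := by
  have h1 := FE_add ha (FE_smul hb (-1))
  have h2 : (fun n => a n + -1 * b n) = fun n => a n - b n := by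
    funext n; ring
  rwa [h2] at h1

/-- the parallelogram identity for the norm -/
theorem nr_para {a b : (V → ℤ) → ℝ} (ha : FE a) (hb : FE b) :
    nr (fun n => a n + b n) + nr (fun n => a n - b n) = 2 * nr a + 2 * nr b := by
  unfold nr
  rw [← (FE_add ha hb).1.tsum_add (FE_sub ha hb).1, ← tsum_mul_left, ← tsum_mul_left,
    ← (ha.1.mul_left 2).tsum_add (hb.1.mul_left 2)]
  exact tsum_congr fun n => by ring

theorem po_para (hB : S_BAS) (K : Matrix V V ℝ) (ν : V → ℝ) {a b : (V → ℤ) → ℝ} (ha : FE a)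
    (hb : FE b) :
    po K ν (fun n => a n + b n) + po K ν (fun n => a n - b n) = 2 * po K ν a + 2 * po K ν b := by
  unfold po
  rw [← (hB.posum K ν _ (FE_add ha hb)).tsum_add (hB.posum K ν _ (FE_sub ha hb)), ← tsum_mul_left,
    ← tsum_mul_left,
    ← ((hB.posum K ν _ ha).mul_left 2).tsum_add ((hB.posum K ν _ hb).mul_left 2)]
  exact tsum_congr fun n => by ring

theorem cr_para (hB : S_BAS) (x y : V) {a b : (V → ℤ) → ℝ} (ha : FE a) (hb : FE b) :
    cr x y (fun n => a n + b n) + cr x y (fun n => a n - b n) = 2 * cr x y a + 2 * cr x y b := by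
  unfold cr
  rw [← (hB.crsum x y _ (FE_add ha hb).1).tsum_add (hB.crsum x y _ (FE_sub ha hb).1),
    ← tsum_mul_left, ← tsum_mul_left,
    ← ((hB.crsum x y _ ha.1).mul_left 2).tsum_add ((hB.crsum x y _ hb.1).mul_left 2)]
  exact tsum_congr fun n => by ring

theorem FF_para (hB : S_BAS) (K : Matrix V V ℝ) (w : V → V → ℝ) (ν : V → ℝ) {a b : (V → ℤ) → ℝ}
    (ha : FE a) (hb : FE b) :
    FF K w ν (fun n => a n + b n) + FF K w ν (fun n => a n - b n) =
      2 * FF K w ν a + 2 * FF K w ν b := by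
  unfold FF
  have h1 := po_para hB K ν ha hb
  have h2 : (∑ x, ∑ y, w x y * cr x y (fun n => a n + b n)) +
      (∑ x, ∑ y, w x y * cr x y (fun n => a n - b n)) =
      2 * (∑ x, ∑ y, w x y * cr x y a) + 2 * (∑ x, ∑ y, w x y * cr x y b) := by
    rw [Finset.mul_sum, Finset.mul_sum, ← Finset.sum_add_distrib, ← Finset.sum_add_distrib]
    refine Finset.sum_congr rfl fun x _ => ?_
    rw [Finset.mul_sum, Finset.mul_sum, ← Finset.sum_add_distrib, ← Finset.sum_add_distrib]
    refine Finset.sum_congr rfl fun y _ => ?_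
    have h3 := cr_para hB x y ha hb
    rw [← mul_add, h3]; ring
  linarith

/-- the absolute value of a ground state is a ground state -/
theorem abs_G (hB : S_BAS) (hL : S_LB) [Nonempty V] {K : Matrix V V ℝ} {w : V → V → ℝ}
    {ν : V → ℝ} {N : ℤ} {Φ : (V → ℤ) → ℝ} (hK : K.PosDef) (hw : ∀ x y, 0 ≤ w x y)
    (h : IsG K w ν N Φ) : IsG K w ν N (fun n => |Φ n|) := by
  obtain ⟨h1, h2, h3, h4⟩ := h
  have hFE : FE (fun n => |Φ n|) := by
    constructor
    · refine h1.1.congr fun n => ?_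
      rw [sq_abs]
    · refine h1.2.congr fun n => ?_
      rw [sq_abs]
  have hS : Sec N (fun n => |Φ n|) := by
    intro n hn
    exact h2 n (fun h => hn (by show |Φ n| = 0; rw [h, abs_zero]))
  have hn : nr (fun n => |Φ n|) = 1 := by
    rw [← h3]
    unfold nr
    exact tsum_congr fun n => by rw [sq_abs]
  refine ⟨hFE, hS, hn, ?_⟩
  apply le_antisymm
  · rw [← h4]
    unfold FF
    have e1 : po K ν (fun n => |Φ n|) = po K ν Φ := by
      unfold po
      exact tsum_congr fun n => by rw [sq_abs]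
    have e2 : (∑ x, ∑ y, w x y * cr x y Φ) ≤ ∑ x, ∑ y, w x y * cr x y (fun n => |Φ n|) := by
      refine Finset.sum_le_sum fun x _ => Finset.sum_le_sum fun y _ => ?_
      refine mul_le_mul_of_nonneg_left ?_ (hw x y)
      unfold cr
      refine (hB.crsum x y _ h1.1).tsum_le_tsum (fun n => ?_) (hB.crsum x y _ hFE.1)
      rw [← abs_mul]
      exact le_abs_self _
    rw [e1]
    linarith
  · have := hL K w ν N _ hK.posSemidef hw hFE hS
    rwa [hn, mul_one] at this

/-- the linear equation -/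
def Eq (K : Matrix V V ℝ) (w : V → V → ℝ) (ν : V → ℝ) (e : ℝ) (X : (V → ℤ) → ℝ) : Prop :=
  ∀ n, (pot K ν n - e) * X n = (∑ x, ∑ y, w x y * (X (hp x y n) + X (hp y x n))) / 2

theorem Eq.add {K : Matrix V V ℝ} {w : V → V → ℝ} {ν : V → ℝ} {e : ℝ} {X Y : (V → ℤ) → ℝ}
    (hX : Eq K w ν e X) (hY : Eq K w ν e Y) : Eq K w ν e (fun n => X n + Y n) := by
  intro n
  rw [mul_add, hX n, hY n, ← add_div, ← Finset.sum_add_distrib]
  congr 1
  refine Finset.sum_congr rfl fun x _ => ?_
  rw [← Finset.sum_add_distrib]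
  refine Finset.sum_congr rfl fun y _ => ?_
  ring

/-- a nonnegative solution with a zero vanishes on the sector -/
theorem Eq.zero {K : Matrix V V ℝ} {w : V → V → ℝ} {ν : V → ℝ} {e : ℝ} {X : (V → ℤ) → ℝ}
    (hX : Eq K w ν e X) (hw : ∀ x y, 0 ≤ w x y) (hc : Conn w) (h0 : ∀ n, 0 ≤ X n)
    {n₀ : V → ℤ} (hn₀ : X n₀ = 0) {n : V → ℤ} (hn : tot n = tot n₀) : X n = 0 := by
  have key : ∀ a b : V → ℤ, (∃ x y, 0 < w x y ∧ (b = hp x y a ∨ b = hp y x a)) → X a = 0 →
      X b = 0 := by
    rintro a b ⟨x, y, hxy, hb⟩ ha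
    have h1 := hX a
    rw [ha, mul_zero] at h1
    have h2 : (∑ x, ∑ y, w x y * (X (hp x y a) + X (hp y x a))) = 0 := by linarith
    have hnn : ∀ x y, 0 ≤ w x y * (X (hp x y a) + X (hp y x a)) := fun x y =>
      mul_nonneg (hw x y) (add_nonneg (h0 _) (h0 _))
    rw [Finset.sum_eq_zero_iff_of_nonneg (fun x _ => Finset.sum_nonneg fun y _ => hnn x y)] at h2
    have h3 := h2 x (Finset.mem_univ x)
    rw [Finset.sum_eq_zero_iff_of_nonneg (fun y _ => hnn x y)] at h3
    have h4 := h3 y (Finset.mem_univ y)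
    have h5 : X (hp x y a) + X (hp y x a) = 0 := by
      rcases mul_eq_zero.mp h4 with h | h
      · exact absurd h hxy.ne'
      · exact h
    have h6 := h0 (hp x y a)
    have h7 := h0 (hp y x a)
    rcases hb with rfl | rfl
    · linarith
    · linarith
  have h1 := hc n₀ n hn.symm
  induction h1 with
  | refl => exact hn₀
  | tail _ h2 h3 => exact key _ _ h2 (h3 (by
      obtain ⟨x, y, -, hb⟩ := h2
      rcases hb with rfl | rfl
      · rw [tot_hp] at hn; exact hn
      · rw [tot_hp] at hn; exact hn))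

/-- a ground state has constant sign on its sector -/
theorem sign (hB : S_BAS) (hL : S_LB) (hE : S_EIG) [Nonempty V] {K : Matrix V V ℝ}
    {w : V → V → ℝ} {ν : V → ℝ} {N : ℤ} {Φ : (V → ℤ) → ℝ} (hK : K.PosDef)
    (hw : ∀ x y, 0 ≤ w x y) (hc : Conn w) (h : IsG K w ν N Φ) :
    (∀ n, tot n = N → 0 < Φ n) ∨ ∀ n, tot n = N → Φ n < 0 := by
  have hA := abs_G hB hL hK hw h
  have e1 : Eq K w ν (en K w ν N) Φ := (hE K w ν N Φ hK hw h).1
  have e2 : Eq K w ν (en K w ν N) (fun n => |Φ n|) := (hE K w ν N _ hK hw hA).1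
  have hpos : ∀ n, tot n = N → 0 < |Φ n| := by
    intro n hn
    by_contra hcon
    have h0 : |Φ n| = 0 := le_antisymm (not_lt.mp hcon) (abs_nonneg _)
    have h1 : ∀ m, Φ m = 0 := by
      intro m
      by_contra hm
      have h2 := h.2.1 m hm
      have h3 := e2.zero hw hc (fun n => abs_nonneg (Φ n)) h0 (n := m) (by rw [h2, hn])
      exact hm (abs_eq_zero.mp h3)
    have h2 := h.2.2.1
    unfold nr at h2
    simp [h1] at h2
  have e3 := e2.add e1
  by_cases hz : ∃ n, tot n = N ∧ |Φ n| + Φ n = 0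
  · right
    obtain ⟨n₀, h1, h2⟩ := hz
    intro n hn
    have h3 : |Φ n| + Φ n = 0 := e3.zero hw hc (fun n => by linarith [neg_abs_le (Φ n)]) h2
      (n := n) (by rw [hn, h1])
    have h4 := hpos n hn
    linarith
  · left
    intro n hn
    by_contra hcon
    apply hz
    refine ⟨n, hn, ?_⟩
    rw [abs_of_nonpos (not_lt.mp hcon)]
    ring

theorem main (hB : S_BAS) (hL : S_LB) (hE : S_EIG) : S_UN := by
  intro V _ _ _ K w ν N Φ Φ' hK hw hc h h'
  have hs := sign hB hL hE hK hw hc h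
  constructor
  · intro x y
    unfold cr
    refine tsum_nonneg fun n => ?_
    by_cases hn : tot n = N
    · rcases hs with hs | hs
      · exact mul_nonneg (hs _ (by rw [tot_hp, hn])).le (hs _ hn).le
      · exact mul_nonneg_of_nonpos_of_nonpos (hs _ (by rw [tot_hp, hn])).le (hs _ hn).le
    · have h0 : Φ n = 0 := by
        by_contra hcon
        exact hn (h.2.1 n hcon)
      rw [h0, mul_zero]
  · obtain ⟨x₀⟩ := (inferInstance : Nonempty V)
    obtain ⟨n₀, hn₀⟩ : ∃ n₀ : V → ℤ, tot n₀ = N := ⟨Pi.single x₀ N, by simp [tot]⟩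
    have hne : Φ n₀ ≠ 0 := by
      rcases hs with hs | hs
      · exact (hs n₀ hn₀).ne'
      · exact (hs n₀ hn₀).ne
    obtain ⟨c, hcc⟩ : ∃ c : ℝ, c = Φ' n₀ / Φ n₀ := ⟨_, rfl⟩
    have hc0 : Φ' n₀ - c * Φ n₀ = 0 := by rw [hcc]; field_simp; ring
    obtain ⟨D, hD⟩ : ∃ D : (V → ℤ) → ℝ, D = fun n => Φ' n - c * Φ n := ⟨_, rfl⟩
    have hDn : D n₀ = 0 := by rw [hD]; exact hc0
    have hcΦ := FE_smul h.1 c
    have hDF : FE D := by rw [hD]; exact FE_sub h'.1 hcΦ
    have hDS : Sec N D := by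
      intro n hn
      by_contra hcon
      apply hn
      have h1 : Φ n = 0 := by
        by_contra h2
        exact hcon (h.2.1 n h2)
      have h2 : Φ' n = 0 := by
        by_contra h2
        exact hcon (h'.2.1 n h2)
      rw [hD]
      simp [h1, h2]
    have hPF : FE (fun n => Φ' n + c * Φ n) := FE_add h'.1 hcΦ
    have hPS : Sec N (fun n => Φ' n + c * Φ n) := by
      intro n hn
      by_contra hcon
      apply hn
      have h1 : Φ n = 0 := by
        by_contra h2
        exact hcon (h.2.1 n h2)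
      have h2 : Φ' n = 0 := by
        by_contra h2
        exact hcon (h'.2.1 n h2)
      simp [h1, h2]
    have p1 := hL K w ν N D hK.posSemidef hw hDF hDS
    have p2 := hL K w ν N _ hK.posSemidef hw hPF hPS
    have p3 := FF_para hB K w ν h'.1 hcΦ
    have p4 := nr_para h'.1 hcΦ
    rw [hB.FFsmul K w ν c Φ, h.2.2.2, h'.2.2.2] at p3
    rw [hB.nrsmul c Φ, h.2.2.1, h'.2.2.1] at p4
    rw [← hD] at p3 p4
    have p5 : FF K w ν D = en K w ν N * nr D := by
      have p6 : en K w ν N * nr (fun n => Φ' n + c * Φ n) + en K w ν N * nr D =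
          2 * en K w ν N + 2 * (c ^ 2 * en K w ν N) := by
        rw [← mul_add, p4]; ring
      apply le_antisymm _ p1
      linarith
    have hnr : nr D = 0 := by
      by_contra hcon
      have hpos : 0 < nr D := lt_of_le_of_ne (tsum_nonneg fun n => sq_nonneg _) (Ne.symm hcon)
      obtain ⟨t, ht⟩ : ∃ t : ℝ, t = (√(nr D))⁻¹ := ⟨_, rfl⟩
      have ht2 : t ^ 2 * nr D = 1 := by
        rw [ht, inv_pow, Real.sq_sqrt hpos.le, inv_mul_cancel₀ hpos.ne']
      have hG : IsG K w ν N (fun n => t * D n) := by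
        refine ⟨FE_smul hDF t, ?_, ?_, ?_⟩
        · intro n hn
          exact hDS n (fun h => hn (by show t * D n = 0; rw [h, mul_zero]))
        · rw [hB.nrsmul, ht2]
        · rw [hB.FFsmul, p5]
          calc t ^ 2 * (en K w ν N * nr D) = en K w ν N * (t ^ 2 * nr D) := by ring
            _ = en K w ν N := by rw [ht2, mul_one]
      rcases sign hB hL hE hK hw hc hG with hs' | hs'
      · have := hs' n₀ hn₀
        rw [hDn, mul_zero] at this
        exact lt_irrefl _ this
      · have := hs' n₀ hn₀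
        rw [hDn, mul_zero] at this
        exact lt_irrefl _ this
    have hD0 : ∀ n, D n = 0 := by
      intro n
      have h1 : D n ^ 2 ≤ nr D := hDF.1.le_tsum n fun m _ => sq_nonneg _
      rw [hnr] at h1
      exact pow_eq_zero_iff (two_ne_zero) |>.mp (le_antisymm h1 (sq_nonneg _))
    have hΦ : ∀ n, Φ' n = c * Φ n := by
      intro n
      have := hD0 n
      rw [hD] at this
      linarith
    have hc2 : c ^ 2 = 1 := by
      have h1 : Φ' = fun n => c * Φ n := funext hΦ
      have h2 := h'.2.2.1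
      rw [h1, hB.nrsmul, h.2.2.1, mul_one] at h2
      exact h2
    rcases (sq_eq_sq_iff_eq_or_eq_neg.mp (by rw [hc2, one_pow] : c ^ 2 = 1 ^ 2)) with h1 | h1
    · left; intro n; rw [hΦ n, h1, one_mul]
    · right; intro n; rw [hΦ n, h1, neg_one_mul]

end Pool.Agent.N407.QR_UN
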