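import Pool.Agent.N906.SZ.Stm
import Pool.Agent.N42.RSA
import Pool.Agent.Cov.PNT

/-!
# Project SZ (helper906), GLOWQ: the generating function over the prime numbers from below (helper407)
-/

set_option autoImplicit false

namespace Pool.Agent.N407.SZ

open Finset Filter Topology
open Pool.Agent.N906.SZ
open Pool.Agent.N42.RSA (PITn cf Ls mem_Ls gs gs_low blk small num1 num2 num3)

/-! ### The prime numbers from below -/

theorem elow2 {ι : Type} {N : ι → ℝ} (h2 : ∀ v, 2 ≤ N v) (hint : ∀ v, ∃ n : ℕ, N v = n)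
    (hP : PITn N) : ∀ ε : ℝ, 0 < ε → ε < 1 → ∃ u₀ : ℝ, 0 < u₀ ∧ u₀ < 1 / 2 ∧
    ∀ u : ℝ, 0 < u → u < u₀ → ∃ s : Finset ι, (∀ v ∈ s, u ^ (-(1 + ε)) ≤ N v ∧
      24 / ε ≤ N v * u ∧ u * Real.log (N v) ≤ ε / 8 ∧ 1 ≤ Real.log (N v)) ∧
      (1 - ε / 8) ^ 2 * (1 - 9 / 8 * ε) / Real.log (1 / u) ≤
        ∑ v ∈ s, 1 / (N v * Real.log (N v)) := by
  classical
  intro ε hε hε1
  obtain ⟨lam, hlam⟩ : ∃ lam, lam = 1 + ε / 8 := ⟨_, rfl⟩
  have hl : 1 < lam := by rw [hlam]; linarith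
  obtain ⟨T₀, hT₀, hb⟩ := blk hP hint hl (η := ε / 8) (by linarith)
  obtain ⟨u₀, hu₀, hu₀2, hsm⟩ := small
    (L := max (max 1 (Real.log T₀)) (Real.log (24 / ε) / ε)) (κ := ε / 8 * (ε / 16)) (by positivity)
  refine ⟨u₀, hu₀, hu₀2, fun u hu huu => ?_⟩
  obtain ⟨hL, hul⟩ := hsm u hu huu
  obtain ⟨l, hld⟩ : ∃ l, l = Real.log (1 / u) := ⟨_, rfl⟩
  rw [← hld] at hL hul ⊢
  have hL1 : 1 ≤ l := le_trans (le_max_left _ _) (le_trans (le_max_left _ _) hL)
  have hL2 : Real.log T₀ ≤ l := le_trans (le_max_right _ _) (le_trans (le_max_left _ _) hL)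
  have hL3 : Real.log (24 / ε) ≤ ε * l := by
    have h := le_trans (le_max_right _ _) hL
    rw [div_le_iff₀ hε] at h
    linarith
  have hlu : Real.log u = -l := by rw [hld, one_div, Real.log_inv, neg_neg]
  have hu1 : u = Real.exp (-l) := by rw [← hlu, Real.exp_log hu]
  obtain ⟨V, hVd⟩ : ∃ V, V = u ^ (-(1 + ε)) := ⟨_, rfl⟩
  rw [← hVd]
  have hVe : V = Real.exp ((1 + ε) * l) := by
    rw [hVd, Real.rpow_def_of_pos hu, hlu]
    congr 1
    ring
  have hlV : Real.log V = (1 + ε) * l := by rw [hVe, Real.log_exp]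
  have hV0 : 0 < V := by rw [hVe]; exact Real.exp_pos _
  have hVT : T₀ ≤ V := by
    have h3 : Real.log T₀ ≤ Real.log V := by
      rw [hlV]
      have : 0 ≤ ε * l := mul_nonneg hε.le (by linarith)
      linarith
    exact (Real.log_le_log_iff (by linarith) hV0).1 h3
  have hVu : 24 / ε ≤ V * u := by
    have h3 : V * u = Real.exp (ε * l) := by
      rw [hVe, hu1, ← Real.exp_add]
      congr 1
      ring
    rw [h3, ← Real.exp_log (show (0 : ℝ) < 24 / ε by positivity)]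
    exact Real.exp_le_exp.2 hL3
  -- the upper end
  obtain ⟨δ, hδ⟩ : ∃ δ, δ = ε / 8 := ⟨_, rfl⟩
  have hδ0 : 0 < δ := by rw [hδ]; positivity
  have hll : 0 < Real.log lam := Real.log_pos hl
  have hll1 : Real.log lam ≤ ε / 8 := by
    have := Real.log_le_sub_one_of_pos (show 0 < lam by linarith)
    rw [hlam] at this ⊢
    linarith
  have hul2 : u * l ≤ δ * (ε / 16) := by rw [hδ]; exact hul
  have hul0 : u ≤ u * l := le_mul_of_one_le_right hu.le hL1
  have hδε : δ * (ε / 16) ≤ δ / 16 := by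
    have := mul_le_mul_of_nonneg_left hε1.le hδ0.le
    linarith
  have hδ1 : δ ≤ 1 / 8 := by linarith
  have hW1 : Real.log V ≤ δ / u := by
    rw [le_div_iff₀ hu, hlV]
    have h3 : (1 + ε) * (u * l) ≤ 2 * (u * l) :=
      mul_le_mul_of_nonneg_right (by linarith) (by linarith)
    linarith
  have hq : 0 ≤ (δ / u - Real.log V) / Real.log lam := div_nonneg (by linarith) hll.le
  obtain ⟨m, hm⟩ : ∃ m : ℕ, m = ⌊(δ / u - Real.log V) / Real.log lam⌋₊ := ⟨_, rfl⟩
  have hm1 : (m : ℝ) * Real.log lam ≤ δ / u - Real.log V := by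
    rw [← le_div_iff₀ hll, hm]
    exact Nat.floor_le hq
  have hm2 : δ / u - Real.log V < (m + 1) * Real.log lam := by
    rw [← div_lt_iff₀ hll, hm]
    exact Nat.lt_floor_add_one _
  obtain ⟨W, hWd⟩ : ∃ W, W = V * lam ^ m := ⟨_, rfl⟩
  have hlW : Real.log W = Real.log V + m * Real.log lam := by
    rw [hWd, Real.log_mul hV0.ne' (by positivity), Real.log_pow]
  have hW2 : Real.log W ≤ δ / u := by rw [hlW]; linarith
  have hW3 : δ / u - Real.log lam ≤ Real.log W := by rw [hlW]; linarith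
  have hW4 : δ / (2 * u) ≤ Real.log W := by
    have h3 : Real.log lam ≤ δ / (2 * u) := by
      rw [le_div_iff₀ (by positivity)]
      have h5 : Real.log lam * (2 * u) ≤ 1 / 8 * (2 * u) :=
        mul_le_mul_of_nonneg_right (by linarith) (by linarith)
      linarith
    have h4 : δ / u = δ / (2 * u) + δ / (2 * u) := by field_simp; norm_num
    linarith
  have hlW0 : 0 < Real.log W := lt_of_lt_of_le (by positivity) hW4
  have hWV : V ≤ W := by
    rw [hWd]
    exact le_mul_of_one_le_right hV0.le (one_le_pow₀ hl.le)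
  refine ⟨Ls hP W \ Ls hP V, fun v hv => ?_, ?_⟩
  · have h3 := (mem_sdiff.1 hv).2
    rw [mem_Ls, not_le] at h3
    have h5 : N v ≤ W := (mem_Ls hP).1 (mem_sdiff.1 hv).1
    have h6 : Real.log (N v) ≤ δ / u :=
      (Real.log_le_log (by linarith [h2 v]) h5).trans hW2
    rw [le_div_iff₀ hu] at h6
    refine ⟨h3.le, ?_, ?_, ?_⟩
    · have := mul_le_mul_of_nonneg_right h3.le hu.le
      linarith
    · rw [← hδ]
      linarith
    · have h7 := Real.log_le_log hV0 h3.le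
      rw [hlV] at h7
      have : 0 ≤ ε * l := mul_nonneg hε.le (by linarith)
      linarith
  · have hsub : Ls hP V ⊆ Ls hP W := fun v hv => (mem_Ls hP).2 (((mem_Ls hP).1 hv).trans hWV)
    have h3 : gs hP W - gs hP V = ∑ v ∈ Ls hP W \ Ls hP V, 1 / (N v * Real.log (N v)) := by
      rw [gs, gs, ← sum_sdiff hsub]
      ring
    rw [← h3]
    have hlow := gs_low hP h2 hl hT₀ hb hVT m
    rw [← hWd] at hlow
    -- the constant
    have hc := num1 hε hε1 hlam
    have hd : (1 - 9 / 8 * ε) / l ≤ 1 / Real.log V - 1 / Real.log W :=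
      num3 hε hε1 hδ0 hu hL1 hul2 hlV hlW0 hW4
    by_cases hneg : 1 - 9 / 8 * ε ≤ 0
    · have h3 : (1 - ε / 8) ^ 2 * (1 - 9 / 8 * ε) / l ≤ 0 :=
        div_nonpos_of_nonpos_of_nonneg (mul_nonpos_of_nonneg_of_nonpos (by positivity) hneg)
          (by linarith)
      have h4 : gs hP V ≤ gs hP W := by
        refine sum_le_sum_of_subset_of_nonneg
          (fun v hv => (mem_Ls hP).2 (((mem_Ls hP).1 hv).trans hWV)) fun v _ _ => ?_
        have := h2 v
        have : 0 < Real.log (N v) := Real.log_pos (by linarith)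
        positivity
      linarith
    · push Not at hneg
      refine le_trans ?_ hlow
      rw [mul_div_assoc]
      exact mul_le_mul hc hd (div_nonneg hneg.le (by linarith))
        (le_trans (sq_nonneg (1 - ε / 8)) hc)

/-- one term -/
theorem term2 {ε u n : ℝ} (hε : 0 < ε) (hε1 : ε < 1) (hu : 0 < u) (hn0 : 0 < n)
    (hln : 1 ≤ Real.log n) (hVu : 24 / ε ≤ n * u) (hδ : u * Real.log n ≤ ε / 8) :
    (1 - ε / 8) ^ 2 * (1 - ε / 4) * (2 / u) * (1 / (n * Real.log n)) ≤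
      Real.log (1 + (1 + n ^ (-(4 * u))) / (n * (n ^ u - 1))) := by
  obtain ⟨x, hx⟩ : ∃ x, x = u * Real.log n := ⟨_, rfl⟩
  have hx0 : 0 < x := by rw [hx]; positivity
  have hx1 : x ≤ ε / 8 := by rw [hx]; exact hδ
  have hnu : n ^ u = Real.exp x := by rw [Real.rpow_def_of_pos hn0, hx, mul_comm]
  have hn4 : n ^ (-(4 * u)) = Real.exp (-(4 * x)) := by
    rw [Real.rpow_def_of_pos hn0, hx]
    congr 1
    ring
  rw [hnu, hn4]
  have h1 : x ≤ Real.exp x - 1 := by linarith [Real.add_one_le_exp x]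
  have h2 : (1 - ε / 8) * (Real.exp x - 1) ≤ x := by
    have h3 : 1 - x ≤ Real.exp (-x) := by linarith [Real.add_one_le_exp (-x)]
    have h4 : (1 - x) * Real.exp x ≤ 1 := by
      calc (1 - x) * Real.exp x ≤ Real.exp (-x) * Real.exp x :=
            mul_le_mul_of_nonneg_right h3 (Real.exp_pos x).le
        _ = 1 := by rw [← Real.exp_add, neg_add_cancel, Real.exp_zero]
    have h5 : (1 - x) * (Real.exp x - 1) ≤ x := by linarith
    nlinarith
  obtain ⟨D, hD⟩ : ∃ D, D = Real.exp x - 1 := ⟨_, rfl⟩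
  rw [← hD] at h1 h2 ⊢
  have hD0 : 0 < D := by linarith
  obtain ⟨k, hk⟩ : ∃ k, k = 1 + Real.exp (-(4 * x)) := ⟨_, rfl⟩
  rw [← hk]
  have hk1 : 2 * (1 - ε / 4) ≤ k := by
    have := Real.add_one_le_exp (-(4 * x))
    rw [hk]
    linarith
  have hk2 : k ≤ 2 := by
    have : Real.exp (-(4 * x)) ≤ 1 := Real.exp_le_one_iff.2 (by linarith)
    rw [hk]
    linarith
  have hk0 : 0 < k := by linarith
  obtain ⟨y, hy⟩ : ∃ y, y = k / (n * D) := ⟨_, rfl⟩
  rw [← hy]
  have hy0 : 0 < y := by rw [hy]; positivity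
  have hy1 : y ≤ ε / 8 := by
    rw [hy, div_le_iff₀ (by positivity)]
    have h6 : 24 / ε ≤ n * D := by
      calc 24 / ε ≤ n * u := hVu
        _ ≤ n * x := by
          rw [hx]
          nlinarith [mul_pos hn0 hu]
        _ ≤ n * D := mul_le_mul_of_nonneg_left h1 hn0.le
    rw [div_le_iff₀ hε] at h6
    linarith
  have h7 : (1 - ε / 8) * y ≤ Real.log (1 + y) := by
    have h8 := Real.one_sub_inv_le_log_of_pos (x := 1 + y) (by linarith)
    have h9 : (1 - y) * y ≤ 1 - (1 + y)⁻¹ := by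
      have h10 : 1 - (1 + y)⁻¹ = y / (1 + y) := by
        field_simp
        ring
      rw [h10, le_div_iff₀ (by linarith)]
      nlinarith [mul_pos hy0 hy0, mul_pos hy0 (mul_pos hy0 hy0)]
    have h11 : (1 - ε / 8) * y ≤ (1 - y) * y :=
      mul_le_mul_of_nonneg_right (by linarith) hy0.le
    linarith
  have h12 : (1 - ε / 8) * (1 - ε / 4) * (2 / u) * (1 / (n * Real.log n)) ≤ y := by
    rw [hy, le_div_iff₀ (by positivity)]
    have h13 : (1 - ε / 8) * (1 - ε / 4) * (2 / u) * (1 / (n * Real.log n)) * (n * D) =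
        (2 * (1 - ε / 4)) * ((1 - ε / 8) * D) / x := by
      rw [hx]
      have : Real.log n ≠ 0 := by linarith
      field_simp
    rw [h13, div_le_iff₀ hx0]
    exact mul_le_mul hk1 h2 (by
      have : 0 < 1 - ε / 8 := by linarith
      positivity) hk0.le
  have h14 : 0 ≤ 1 - ε / 8 := by linarith
  calc (1 - ε / 8) ^ 2 * (1 - ε / 4) * (2 / u) * (1 / (n * Real.log n))
      = (1 - ε / 8) * ((1 - ε / 8) * (1 - ε / 4) * (2 / u) * (1 / (n * Real.log n))) := by ring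
    _ ≤ (1 - ε / 8) * y := mul_le_mul_of_nonneg_left h12 h14
    _ ≤ _ := h7

/-- the prime number theorem -/
theorem pnt : PITn (fun p : Nat.Primes => ((p : ℕ) : ℝ)) := by
  unfold PITn
  have h := (Pool.Agent.Cov.PNT.pi_tendsto).comp tendsto_natCast_atTop_atTop (α := ℕ)
  refine h.congr fun n => ?_
  simp only [Function.comp_apply, Nat.floor_natCast]
  congr 3
  have e : (fun v : Nat.Primes => (v : ℕ)) '' {v : Nat.Primes | ((v : ℕ) : ℝ) ≤ n} =
      (((Finset.range (n + 1)).filter Nat.Prime : Finset ℕ) : Set ℕ) := by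
    ext q
    simp only [Set.mem_image, Nat.cast_le, Finset.coe_filter, Finset.mem_range]
    constructor
    · rintro ⟨v, hv, rfl⟩
      exact ⟨Nat.lt_succ_of_le (by exact_mod_cast hv), v.2⟩
    · rintro ⟨h1, h2⟩
      exact ⟨⟨q, h2⟩, by exact_mod_cast Nat.le_of_lt_succ h1, rfl⟩
  rw [← Set.ncard_image_of_injective {v : Nat.Primes | ((v : ℕ) : ℝ) ≤ n}
    (f := fun v : Nat.Primes => (v : ℕ)) (fun v w h => Subtype.ext h), e, Set.ncard_coe_finset,
    Nat.primeCounting, Nat.primeCounting', Nat.count_eq_card_filter_range]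

/-! ### The finite Euler products -/

/-- the weight -/
noncomputable def wt (u : ℝ) (n : ℕ) : ℝ :=
  (n : ℝ) ^ (-u) / ((∏ p ∈ n.primeFactors, p : ℕ) : ℝ)

theorem wt_mul (u : ℝ) {n p c : ℕ} (hp : p.Prime) (hn : n ≠ 0) (hpn : ¬ p ∣ n) (hc : c ≠ 0) :
    wt u (n * p ^ c) = wt u n * (((p : ℝ) ^ c) ^ (-u) / p) := by
  unfold wt
  have h1 : (n * p ^ c).primeFactors = insert p n.primeFactors := by
    rw [Nat.primeFactors_mul hn (pow_ne_zero _ hp.ne_zero), Nat.primeFactors_prime_pow hc hp,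
      Finset.union_comm]
    rfl
  have h2 : p ∉ n.primeFactors := fun h => hpn (Nat.dvd_of_mem_primeFactors h)
  rw [h1, Finset.prod_insert h2]
  push_cast
  rw [Real.mul_rpow (by positivity) (by positivity)]
  have h3 : (p : ℝ) ≠ 0 := by exact_mod_cast hp.ne_zero
  have h4 : ((∏ p ∈ n.primeFactors, (p : ℝ))) ≠ 0 := by
    refine Finset.prod_ne_zero_iff.2 fun q hq => ?_
    exact_mod_cast (Nat.prime_of_mem_primeFactors hq).ne_zero
  field_simp

/-- the exponents at one prime -/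
def Ex (J : ℕ) : Finset (ℕ × ℕ) :=
  insert (0, 0) ((Finset.range J).image (fun j => (j + 1, 0)) ∪
    (Finset.range J).image (fun j => (0, j + 5)))

theorem mem_Ex {J : ℕ} {x : ℕ × ℕ} (h : x ∈ Ex J) : (x.1 = 0 ∨ x.2 = 0) ∧ (x.2 = 0 ∨ 5 ≤ x.2) := by
  simp only [Ex, mem_insert, mem_union, mem_image, mem_range] at h
  rcases h with rfl | ⟨j, -, rfl⟩ | ⟨j, -, rfl⟩
  · simp
  · simp
  · simp

/-- the local sum -/
noncomputable def loc (u : ℝ) (J p : ℕ) : ℝ :=
  1 + ((p : ℝ)⁻¹ * ∑ j ∈ Finset.range J, ((p : ℝ) ^ (-u)) ^ (j + 1) +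
    (p : ℝ)⁻¹ * ∑ j ∈ Finset.range J, ((p : ℝ) ^ (-u)) ^ (j + 5))

theorem rpow_swap (u : ℝ) (p c : ℕ) : ((p : ℝ) ^ c) ^ (-u) = ((p : ℝ) ^ (-u)) ^ c := by
  rw [← Real.rpow_natCast, ← Real.rpow_natCast, ← Real.rpow_mul (Nat.cast_nonneg _),
    ← Real.rpow_mul (Nat.cast_nonneg _), mul_comm]

theorem sum_Ex (u : ℝ) (J : ℕ) {n p : ℕ} (hp : p.Prime) (hn : n ≠ 0) (hpn : ¬ p ∣ n) :
    ∑ e ∈ Ex J, wt u (n * p ^ (e.1 + e.2)) = wt u n * loc u J p := by
  classical
  unfold Ex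
  rw [Finset.sum_insert, Finset.sum_union, Finset.sum_image, Finset.sum_image]
  · simp only [add_zero, pow_zero, mul_one, zero_add]
    have h1 : ∀ j ∈ Finset.range J, wt u (n * p ^ (j + 1)) =
        wt u n * ((p : ℝ)⁻¹ * ((p : ℝ) ^ (-u)) ^ (j + 1)) := by
      intro j _
      rw [wt_mul u hp hn hpn (show j + 1 ≠ 0 by omega), rpow_swap]
      ring
    have h2 : ∀ j ∈ Finset.range J, wt u (n * p ^ (j + 5)) =
        wt u n * ((p : ℝ)⁻¹ * ((p : ℝ) ^ (-u)) ^ (j + 5)) := by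
      intro j _
      rw [wt_mul u hp hn hpn (by omega), rpow_swap]
      ring
    rw [Finset.sum_congr rfl h1, Finset.sum_congr rfl h2, ← Finset.mul_sum, ← Finset.mul_sum,
      ← Finset.mul_sum, ← Finset.mul_sum]
    unfold loc
    ring
  · intro a _ b _ h
    simpa using h
  · intro a _ b _ h
    simpa using h
  · rw [Finset.disjoint_left]
    intro x hx hx'
    simp only [mem_image, mem_range] at hx hx'
    obtain ⟨j, -, rfl⟩ := hx
    obtain ⟨k, -, hk⟩ := hx'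
    simp at hk
  · simp

theorem build (u : ℝ) (J : ℕ) (s : Finset ℕ) (hs : ∀ p ∈ s, p.Prime) :
    ∃ F : Finset (ℕ × ℕ), (∀ x ∈ F, 1 ≤ x.1 ∧ 1 ≤ x.2 ∧ x.1.Coprime x.2 ∧
      (∀ p : ℕ, p.Prime → p ∣ x.1 * x.2 → p ∈ s) ∧
      ∀ p ∈ x.2.primeFactors, 5 ≤ x.2.factorization p) ∧
      ∑ x ∈ F, wt u (x.1 * x.2) = ∏ p ∈ s, loc u J p := by
  classical
  induction s using Finset.induction_on with
  | empty =>
    refine ⟨{(1, 1)}, ?_, ?_⟩
    · intro x hx
      rw [mem_singleton] at hx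
      subst hx
      refine ⟨le_rfl, le_rfl, by simp, ?_, ?_⟩
      · intro p hp h
        simp only [mul_one, Nat.dvd_one] at h
        exact absurd h hp.one_lt.ne'
      · intro p hp
        simp at hp
    · simp [wt]
  | insert p s hps ih =>
    obtain ⟨F, hF, hsum⟩ := ih fun q hq => hs q (mem_insert_of_mem hq)
    have hp : p.Prime := hs p (mem_insert_self _ _)
    have hpF : ∀ x ∈ F, ¬ p ∣ x.1 * x.2 := fun x hx h => hps ((hF x hx).2.2.2.1 p hp h)
    let φ : (ℕ × ℕ) × (ℕ × ℕ) → ℕ × ℕ := fun y => (y.1.1 * p ^ y.2.1, y.1.2 * p ^ y.2.2)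
    have fac : ∀ q a : ℕ, q ≠ 0 → ¬ p ∣ q → (q * p ^ a).factorization p = a := by
      intro q a hq hpq
      rw [Nat.factorization_mul hq (pow_ne_zero _ hp.ne_zero), hp.factorization_pow]
      simp [Nat.factorization_eq_zero_of_not_dvd hpq]
    have hinj : Set.InjOn φ (F ×ˢ Ex J : Finset ((ℕ × ℕ) × (ℕ × ℕ))) := by
      rintro ⟨x, e⟩ hx ⟨x', e'⟩ hx' h
      rw [mem_coe, mem_product] at hx hx'
      have g1 := hF x hx.1
      have g2 := hF x' hx'.1
      have k1 := hpF x hx.1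
      have k2 := hpF x' hx'.1
      have n1 : ¬ p ∣ x.1 := fun h => k1 (h.mul_right _)
      have n2 : ¬ p ∣ x.2 := fun h => k1 (h.mul_left _)
      have n3 : ¬ p ∣ x'.1 := fun h => k2 (h.mul_right _)
      have n4 : ¬ p ∣ x'.2 := fun h => k2 (h.mul_left _)
      have h1 : x.1 * p ^ e.1 = x'.1 * p ^ e'.1 := congrArg Prod.fst h
      have h2 : x.2 * p ^ e.2 = x'.2 * p ^ e'.2 := congrArg Prod.snd h
      have e1 : e.1 = e'.1 := by
        rw [← fac x.1 e.1 (by omega) n1, h1, fac x'.1 e'.1 (by omega) n3]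
      have e2 : e.2 = e'.2 := by
        rw [← fac x.2 e.2 (by omega) n2, h2, fac x'.2 e'.2 (by omega) n4]
      rw [e1] at h1
      rw [e2] at h2
      have h3 := Nat.eq_of_mul_eq_mul_right (pow_pos hp.pos _) h1
      have h4 := Nat.eq_of_mul_eq_mul_right (pow_pos hp.pos _) h2
      exact Prod.ext (Prod.ext h3 h4) (Prod.ext e1 e2)
    refine ⟨(F ×ˢ Ex J).image φ, ?_, ?_⟩
    · intro z hz
      obtain ⟨⟨x, e⟩, hx, rfl⟩ := mem_image.1 hz
      rw [mem_product] at hx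
      obtain ⟨g1, g2, g3, g4, g5⟩ := hF x hx.1
      have k1 := hpF x hx.1
      have n1 : ¬ p ∣ x.1 := fun h => k1 (h.mul_right _)
      have n2 : ¬ p ∣ x.2 := fun h => k1 (h.mul_left _)
      obtain ⟨m1, m2⟩ := mem_Ex hx.2
      refine ⟨Nat.mul_pos g1 (pow_pos hp.pos _), Nat.mul_pos g2 (pow_pos hp.pos _), ?_, ?_, ?_⟩
      · show (x.1 * p ^ e.1).Coprime (x.2 * p ^ e.2)
        have c1 : p.Coprime x.1 := (Nat.Prime.coprime_iff_not_dvd hp).2 n1
        have c2 : p.Coprime x.2 := (Nat.Prime.coprime_iff_not_dvd hp).2 n2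
        rw [Nat.coprime_mul_iff_left, Nat.coprime_mul_iff_right, Nat.coprime_mul_iff_right]
        refine ⟨⟨g3, (c1.symm.pow_right _)⟩, ⟨c2.pow_left _, ?_⟩⟩
        rcases m1 with m1 | m1
        · rw [m1]
          simp
        · rw [m1]
          simp
      · intro q hq hd
        change q ∣ (x.1 * p ^ e.1) * (x.2 * p ^ e.2) at hd
        rw [show (x.1 * p ^ e.1) * (x.2 * p ^ e.2) = (x.1 * x.2) * p ^ (e.1 + e.2) by
          rw [pow_add]; ring] at hd
        rcases (hq.dvd_mul).1 hd with h | h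
        · exact mem_insert_of_mem (g4 q hq h)
        · have := (Nat.prime_dvd_prime_iff_eq hq hp).1 (hq.dvd_of_dvd_pow h)
          rw [this]
          exact mem_insert_self _ _
      · intro q hq
        change q ∈ (x.2 * p ^ e.2).primeFactors at hq
        show 5 ≤ (x.2 * p ^ e.2).factorization q
        have hq' := Nat.prime_of_mem_primeFactors hq
        have hqd := Nat.dvd_of_mem_primeFactors hq
        rcases eq_or_ne q p with rfl | hne
        · rw [fac x.2 e.2 (by omega) n2]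
          rcases m2 with m2 | m2
          · rw [m2, pow_zero, mul_one] at hqd
            exact absurd hqd n2
          · exact m2
        · have hqx : q ∣ x.2 := by
            rcases (hq'.dvd_mul).1 hqd with h | h
            · exact h
            · exact absurd ((Nat.prime_dvd_prime_iff_eq hq' hp).1 (hq'.dvd_of_dvd_pow h)) hne
          rw [Nat.factorization_mul (by omega) (pow_ne_zero _ hp.ne_zero), Finsupp.add_apply]
          exact le_trans (g5 q (Nat.mem_primeFactors.2 ⟨hq', hqx, by omega⟩)) (Nat.le_add_right _ _)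
    · rw [Finset.sum_image hinj, Finset.sum_product, Finset.prod_insert hps, ← hsum,
        Finset.mul_sum]
      refine Finset.sum_congr rfl fun x hx => ?_
      obtain ⟨g1, g2, -, -, -⟩ := hF x hx
      have := sum_Ex u J hp (n := x.1 * x.2) (mul_ne_zero (by omega) (by omega)) (hpF x hx)
      rw [mul_comm, ← this]
      refine Finset.sum_congr rfl fun e _ => ?_
      show wt u ((x.1 * p ^ e.1) * (x.2 * p ^ e.2)) = _
      congr 1
      rw [pow_add]
      ring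

theorem lim_loc {u : ℝ} (hu : 0 < u) {p : ℕ} (hp : 2 ≤ p) :
    Tendsto (fun J : ℕ => loc u J p) atTop
      (𝓝 (1 + (1 + (p : ℝ) ^ (-(4 * u))) / (p * ((p : ℝ) ^ u - 1)))) := by
  have hN : (1 : ℝ) < p := by exact_mod_cast (by omega : 1 < p)
  have hN0 : (0 : ℝ) < p := by linarith
  have hq0 : 0 ≤ (p : ℝ) ^ (-u) := Real.rpow_nonneg hN0.le _
  have hq1 : (p : ℝ) ^ (-u) < 1 := Real.rpow_lt_one_of_one_lt_of_neg hN (by linarith)
  have hs := hasSum_geometric_of_lt_one hq0 hq1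
  have h1 := (hs.mul_left ((p : ℝ) ^ (-u))).tendsto_sum_nat
  have h2 := (hs.mul_left (((p : ℝ) ^ (-u)) ^ 5)).tendsto_sum_nat
  have h3 := ((h1.const_mul ((p : ℝ)⁻¹)).add (h2.const_mul ((p : ℝ)⁻¹))).const_add 1
  refine (Filter.Tendsto.congr (fun J => ?_) h3).trans_eq ?_
  · have e1 : ∀ j : ℕ, (p : ℝ) ^ (-u) * ((p : ℝ) ^ (-u)) ^ j = ((p : ℝ) ^ (-u)) ^ (j + 1) :=
      fun j => (pow_succ' _ _).symm
    have e2 : ∀ j : ℕ, ((p : ℝ) ^ (-u)) ^ 5 * ((p : ℝ) ^ (-u)) ^ j =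
        ((p : ℝ) ^ (-u)) ^ (j + 5) := fun j => by rw [← pow_add, add_comm]
    unfold loc
    simp only [e1, e2]
  · congr 2
    have h6 : (p : ℝ) ^ (-u) = ((p : ℝ) ^ u)⁻¹ := Real.rpow_neg hN0.le u
    have h7 : 1 < (p : ℝ) ^ u := Real.one_lt_rpow hN hu
    have h8 : (p : ℝ) ^ (-(4 * u)) = (((p : ℝ) ^ u)⁻¹) ^ 4 := by
      rw [← h6, ← Real.rpow_natCast, ← Real.rpow_mul hN0.le]
      congr 1
      push_cast
      ring
    rw [h8, h6]
    obtain ⟨y, hy⟩ : ∃ y, y = (p : ℝ) ^ u := ⟨_, rfl⟩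
    rw [← hy] at h7 ⊢
    have h9 : y ≠ 0 := by linarith
    have h10 : y - 1 ≠ 0 := by linarith
    have h11 : 1 - y⁻¹ ≠ 0 := by
      have : y⁻¹ < 1 := inv_lt_one_of_one_lt₀ h7
      linarith
    field_simp

/-- **GLOWQ.** The generating function over the prime numbers from below. -/
theorem glowq : S_GLOWQ := by
  classical
  intro ε hε hε3
  have h2 : ∀ v : Nat.Primes, (2 : ℝ) ≤ ((v : ℕ) : ℝ) := fun v => by exact_mod_cast v.2.two_le
  obtain ⟨u₀, hu₀, hu₀2, h1⟩ := elow2 h2 (fun v => ⟨v, rfl⟩) pnt ε hε (by linarith)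
  refine ⟨u₀, hu₀, hu₀2, fun u hu huu => ?_⟩
  obtain ⟨s, hs1, hs2⟩ := h1 u hu huu
  have hlog : 0 < Real.log (1 / u) := Real.log_pos (by
    rw [lt_div_iff₀ hu]
    linarith)
  obtain ⟨s', hs'⟩ : ∃ s' : Finset ℕ, s' = s.image (fun v : Nat.Primes => (v : ℕ)) := ⟨_, rfl⟩
  have hs'p : ∀ p ∈ s', p.Prime := by
    intro p hp
    rw [hs', mem_image] at hp
    obtain ⟨v, -, rfl⟩ := hp
    exact v.2
  have hs'1 : ∀ p ∈ s', u ^ (-(1 + ε)) ≤ (p : ℝ) ∧ 24 / ε ≤ (p : ℝ) * u ∧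
      u * Real.log p ≤ ε / 8 ∧ 1 ≤ Real.log p := by
    intro p hp
    rw [hs', mem_image] at hp
    obtain ⟨v, hv, rfl⟩ := hp
    exact hs1 v hv
  have hs'2 : (1 - ε / 8) ^ 2 * (1 - 9 / 8 * ε) / Real.log (1 / u) ≤
      ∑ p ∈ s', 1 / ((p : ℝ) * Real.log p) := by
    have h := Finset.sum_image (f := fun p : ℕ => 1 / ((p : ℝ) * Real.log p)) (s := s)
      (g := fun v : Nat.Primes => (v : ℕ)) (fun v _ w _ h => Subtype.ext h)
    rw [hs', h]
    exact hs2
  have hpos : ∀ p ∈ s', 0 < 1 + (1 + (p : ℝ) ^ (-(4 * u))) / (p * ((p : ℝ) ^ u - 1)) := by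
    intro p hp
    have hN : (1 : ℝ) < p := by exact_mod_cast (hs'p p hp).one_lt
    have h7 : 1 < (p : ℝ) ^ u := Real.one_lt_rpow hN hu
    have h8 : 0 < (p : ℝ) * ((p : ℝ) ^ u - 1) := mul_pos (by linarith) (by linarith)
    positivity
  have hbig : Real.exp ((1 - 3 * ε) * 2 / (u * Real.log (1 / u))) <
      ∏ p ∈ s', (1 + (1 + (p : ℝ) ^ (-(4 * u))) / (p * ((p : ℝ) ^ u - 1))) := by
    have h3 : ∏ p ∈ s', (1 + (1 + (p : ℝ) ^ (-(4 * u))) / (p * ((p : ℝ) ^ u - 1))) =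
        Real.exp (∑ p ∈ s', Real.log (1 + (1 + (p : ℝ) ^ (-(4 * u))) / (p * ((p : ℝ) ^ u - 1)))) := by
      rw [Real.exp_sum]
      exact Finset.prod_congr rfl fun p hp => (Real.exp_log (hpos p hp)).symm
    rw [h3]
    refine Real.exp_lt_exp.2 ?_
    have h4 : (1 - ε / 8) ^ 2 * (1 - ε / 4) * (2 / u) * ∑ p ∈ s', 1 / ((p : ℝ) * Real.log p) ≤
        ∑ p ∈ s', Real.log (1 + (1 + (p : ℝ) ^ (-(4 * u))) / (p * ((p : ℝ) ^ u - 1))) := by
      rw [Finset.mul_sum]
      refine Finset.sum_le_sum fun p hp => ?_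
      obtain ⟨-, g2, g3, g4⟩ := hs'1 p hp
      exact term2 hε (by linarith) hu (by exact_mod_cast (hs'p p hp).pos) g4 g2 g3
    refine lt_of_lt_of_le ?_ h4
    have h5 : 0 < 1 - ε / 8 := by linarith
    have h6 : 0 < 1 - ε / 4 := by linarith
    refine lt_of_lt_of_le ?_ (mul_le_mul_of_nonneg_left hs'2 (by positivity))
    have h7 : (1 - ε / 8) ^ 2 * (1 - ε / 4) * (2 / u) *
        ((1 - ε / 8) ^ 2 * (1 - 9 / 8 * ε) / Real.log (1 / u)) =
        ((1 - ε / 4) * ((1 - ε / 8) ^ 4 * (1 - 9 / 8 * ε))) * 2 / (u * Real.log (1 / u)) := by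
      field_simp
    rw [h7]
    have h8 := num2 hε (by linarith)
    have h9 : (1 - ε / 4) * (1 - 2 * ε) ≤ (1 - ε / 4) * ((1 - ε / 8) ^ 4 * (1 - 9 / 8 * ε)) :=
      mul_le_mul_of_nonneg_left h8 h6.le
    have h10 : 1 - 3 * ε < (1 - ε / 4) * (1 - 2 * ε) := by nlinarith
    refine div_lt_div_of_pos_right ?_ (by positivity)
    linarith
  have hlim := tendsto_finsetProd s' fun p (hp : p ∈ s') => lim_loc hu (hs'p p hp).two_le
  obtain ⟨J, hJ⟩ := (hlim.eventually (lt_mem_nhds hbig)).exists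
  obtain ⟨F, hF, hsum⟩ := build u J s' hs'p
  refine ⟨F, fun x hx => ?_, ?_⟩
  · obtain ⟨g1, g2, g3, g4, g5⟩ := hF x hx
    refine ⟨g1, g2, g3, fun p hp => ?_, g5⟩
    exact (hs'1 p (g4 p (Nat.prime_of_mem_primeFactors hp) (Nat.dvd_of_mem_primeFactors hp))).1
  · refine hJ.le.trans (le_of_eq ?_)
    rw [← hsum]
    rfl

end Pool.Agent.N407.SZ
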