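import Mathlib
import Pool.Agent.N906.SZ.Stm

/-!
# Project SZ (helper906), WINQ: the window argument for pairs of natural numbers (helper407)

The window argument (Rankin's method, twice) is adapted from the file `Pool/Agent/N34/RS_WIN.lean` of
helper34.
-/

set_option autoImplicit false

namespace Pool.Agent.N407.SZW

open Finset Filter Topology
open Pool.Agent.N906.SZ

/-- the logarithm of the product -/
noncomputable def tl (x : ℕ × ℕ) : ℝ := Real.log (x.1 * x.2 : ℕ)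

/-- the logarithm of the radical of the product -/
noncomputable def tr (x : ℕ × ℕ) : ℝ := Real.log (∏ p ∈ (x.1 * x.2).primeFactors, p : ℕ)

/-- the number of the prime factors -/
def om (x : ℕ × ℕ) : ℕ := (x.1 * x.2).primeFactors.card

/-- coprime pairs -/
def PC (x : ℕ × ℕ) : Prop := 1 ≤ x.1 ∧ 1 ≤ x.2 ∧ x.1.Coprime x.2

/-- the first component of a coprime pair -/
theorem fst_eq {x : ℕ × ℕ} (h : PC x) :
    x.1 = ∏ p ∈ x.1.primeFactors, p ^ (x.1 * x.2).factorization p := by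
  obtain ⟨h1, h2, h3⟩ := h
  conv_lhs => rw [← Nat.prod_factorization_pow_eq_self (show x.1 ≠ 0 by omega)]
  rw [Nat.prod_factorization_eq_prod_primeFactors]
  refine Finset.prod_congr rfl fun p hp => ?_
  rw [Nat.factorization_mul (by omega) (by omega), Finsupp.add_apply]
  have h4 : x.2.factorization p = 0 := by
    refine Nat.factorization_eq_zero_of_not_dvd fun h => ?_
    exact (Nat.prime_of_mem_primeFactors hp).one_lt.ne'
      (Nat.Coprime.eq_one_of_dvd (Nat.Coprime.coprime_dvd_left (Nat.dvd_of_mem_primeFactors hp) h3) h)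
  rw [h4, add_zero]

/-- a number comes from at most `2 ^ ω` coprime pairs -/
theorem fib (F : Finset (ℕ × ℕ)) (hF : ∀ x ∈ F, PC x) (n : ℕ) :
    (F.filter fun x => x.1 * x.2 = n).card ≤ 2 ^ n.primeFactors.card := by
  classical
  rw [← Finset.card_powerset]
  refine Finset.card_le_card_of_injOn (fun x => x.1.primeFactors) ?_ ?_
  · intro x hx
    rw [mem_coe, mem_filter] at hx
    obtain ⟨h1, h2, -⟩ := hF x hx.1
    rw [mem_coe, mem_powerset, ← hx.2]
    exact Nat.primeFactors_mono (Dvd.intro _ rfl) (Nat.mul_pos h1 h2).ne'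
  · intro x hx y hy h
    rw [mem_coe, mem_filter] at hx hy
    have e1 : x.1 = y.1 := by
      have h' : x.1.primeFactors = y.1.primeFactors := h
      rw [fst_eq (hF x hx.1), fst_eq (hF y hy.1), h', hx.2, hy.2]
    have e2 : x.2 = y.2 := by
      have h3 : x.1 * x.2 = x.1 * y.2 := by
        rw [hx.2, e1, hy.2]
      exact Nat.eq_of_mul_eq_mul_left (hF x hx.1).1 h3
    exact Prod.ext e1 e2

/-- the sums over pairs from above -/
theorem gup2 (h : S_GUPQ) : ∀ μ θ ε : ℝ, 0 < μ → 0 ≤ θ → θ ≤ 1 / 2 → 0 < ε →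
    ∃ u₀ : ℝ, 0 < u₀ ∧ u₀ < 1 / 2 ∧ ∀ u : ℝ, 0 < u → u < u₀ → ∀ F : Finset (ℕ × ℕ),
      (∀ x ∈ F, PC x) → ∑ x ∈ F, μ ^ om x * Real.exp (-(u * tl x) - (1 - θ * u) * tr x) ≤
        Real.exp ((1 + ε) * (2 * μ) / (u * Real.log (1 / u))) := by
  classical
  intro μ θ ε hμ hθ hθ2 hε
  obtain ⟨u₀, hu₀, hu₀2, h1⟩ := h (2 * μ) θ ε (by linarith) hθ hθ2 hε
  refine ⟨u₀, hu₀, hu₀2, fun u hu huu F hF => ?_⟩
  obtain ⟨G, hG⟩ : ∃ G : Finset ℕ, G = F.image (fun x => x.1 * x.2) := ⟨_, rfl⟩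
  have hG1 : ∀ n ∈ G, 1 ≤ n := by
    intro n hn
    rw [hG, mem_image] at hn
    obtain ⟨x, hx, rfl⟩ := hn
    exact Nat.mul_pos (hF x hx).1 (hF x hx).2.1
  refine le_trans ?_ (h1 u hu huu G hG1)
  obtain ⟨g, hg⟩ : ∃ g : ℕ → ℝ, g = fun n : ℕ => μ ^ n.primeFactors.card * (n : ℝ) ^ (-u) *
      ((∏ p ∈ n.primeFactors, p : ℕ) : ℝ) ^ (-(1 - θ * u)) := ⟨_, rfl⟩
  have e1 : ∀ x ∈ F, μ ^ om x * Real.exp (-(u * tl x) - (1 - θ * u) * tr x) = g (x.1 * x.2) := by
    intro x hx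
    have hn : (0 : ℝ) < ((x.1 * x.2 : ℕ) : ℝ) := by
      exact_mod_cast Nat.mul_pos (hF x hx).1 (hF x hx).2.1
    have hr : (0 : ℝ) < ((∏ p ∈ (x.1 * x.2).primeFactors, p : ℕ) : ℝ) := by
      exact_mod_cast Finset.prod_pos fun p hp => (Nat.prime_of_mem_primeFactors hp).pos
    rw [hg]
    show μ ^ (x.1 * x.2).primeFactors.card * _ = μ ^ (x.1 * x.2).primeFactors.card *
      ((x.1 * x.2 : ℕ) : ℝ) ^ (-u) * ((∏ p ∈ (x.1 * x.2).primeFactors, p : ℕ) : ℝ) ^ (-(1 - θ * u))
    rw [Real.rpow_def_of_pos hn, Real.rpow_def_of_pos hr, mul_assoc, ← Real.exp_add]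
    congr 2
    unfold tl tr
    ring
  have e2 : ∑ x ∈ F, g (x.1 * x.2) = ∑ n ∈ G, ∑ x ∈ F with x.1 * x.2 = n, g (x.1 * x.2) := by
    rw [hG]
    exact (Finset.sum_fiberwise_of_maps_to (fun x hx => mem_image_of_mem _ hx) _).symm
  rw [Finset.sum_congr rfl e1, e2]
  refine Finset.sum_le_sum fun n hn => ?_
  have e3 : ∑ x ∈ F with x.1 * x.2 = n, g (x.1 * x.2) =
      ((F.filter fun x => x.1 * x.2 = n).card : ℝ) * g n := by
    rw [← nsmul_eq_mul, ← Finset.sum_const]
    exact Finset.sum_congr rfl fun x hx => by rw [(mem_filter.1 hx).2]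
  rw [e3]
  have hg0 : 0 ≤ g n := by rw [hg]; positivity
  have h2 : ((F.filter fun x => x.1 * x.2 = n).card : ℝ) ≤ 2 ^ n.primeFactors.card := by
    exact_mod_cast fib F hF n
  refine (mul_le_mul_of_nonneg_right h2 hg0).trans (le_of_eq ?_)
  rw [hg]
  simp only
  rw [mul_pow]
  ring

/-- the sums over pairs from below -/
theorem glow2 (h : S_GLOWQ) : ∀ ε : ℝ, 0 < ε → ε < 1 / 3 → ∃ u₀ : ℝ, 0 < u₀ ∧ u₀ < 1 / 2 ∧
    ∀ u : ℝ, 0 < u → u < u₀ → ∃ F : Finset (ℕ × ℕ), (∀ x ∈ F, PC x ∧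
      (∀ p ∈ (x.1 * x.2).primeFactors, u ^ (-(1 + ε)) ≤ (p : ℝ)) ∧
      ∀ p ∈ x.2.primeFactors, 5 ≤ x.2.factorization p) ∧
      Real.exp ((1 - 3 * ε) * 2 / (u * Real.log (1 / u))) ≤
        ∑ x ∈ F, Real.exp (-(u * tl x) - tr x) := by
  intro ε hε hε3
  obtain ⟨u₀, hu₀, hu₀2, h1⟩ := h ε hε hε3
  refine ⟨u₀, hu₀, hu₀2, fun u hu huu => ?_⟩
  obtain ⟨F, hF, hs⟩ := h1 u hu huu
  refine ⟨F, fun x hx => ?_, hs.trans (le_of_eq ?_)⟩
  · obtain ⟨g1, g2, g3, g4, g5⟩ := hF x hx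
    exact ⟨⟨g1, g2, g3⟩, g4, g5⟩
  · refine Finset.sum_congr rfl fun x hx => ?_
    obtain ⟨g1, g2, -⟩ := hF x hx
    have hn : (0 : ℝ) < ((x.1 * x.2 : ℕ) : ℝ) := by exact_mod_cast Nat.mul_pos g1 g2
    have hr : (0 : ℝ) < ((∏ p ∈ (x.1 * x.2).primeFactors, p : ℕ) : ℝ) := by
      exact_mod_cast Finset.prod_pos fun p hp => (Nat.prime_of_mem_primeFactors hp).pos
    unfold tl tr
    rw [Real.exp_sub, Real.exp_log hr, Real.rpow_def_of_pos hn]
    congr 2
    ring

/-- the asymptotic facts used -/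
theorem ev (e M : ℝ) (he : 0 < e) : ∃ Z₀ : ℝ, 1 < Z₀ ∧ ∀ Z : ℝ, Z₀ ≤ Z →
    60 ≤ Real.log Z ∧ M ≤ √(4 * Z / Real.log Z) ∧ Real.log (Real.log Z) ≤ e * Real.log Z := by
  have h1 : Tendsto Real.log atTop atTop := Real.tendsto_log_atTop
  have h2 : ∀ᶠ Z : ℝ in atTop, 60 ≤ Real.log Z := h1.eventually_ge_atTop 60
  have key : ∀ k : ℝ, 0 < k → ∀ᶠ x : ℝ in atTop, Real.log x ≤ k * x := by
    intro k hk
    have h := Real.isLittleO_log_id_atTop.bound hk
    filter_upwards [h, eventually_gt_atTop 1] with x hx hx1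
    rw [Real.norm_eq_abs, Real.norm_eq_abs, id, abs_of_pos (Real.log_pos hx1),
      abs_of_pos (by linarith : (0:ℝ) < x)] at hx
    exact hx
  have h3 : ∀ᶠ Z : ℝ in atTop, Real.log (Real.log Z) ≤ e * Real.log Z := h1.eventually (key e he)
  have h4 : ∀ᶠ Z : ℝ in atTop, Real.log Z ≤ (4 / (M ^ 2 + 1)) * Z := key _ (by positivity)
  obtain ⟨Z₁, hZ₁⟩ := eventually_atTop.1 (h2.and (h3.and h4))
  refine ⟨max Z₁ 2, lt_of_lt_of_le one_lt_two (le_max_right _ _), fun Z hZ => ?_⟩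
  obtain ⟨g2, g3, g4⟩ := hZ₁ Z (le_trans (le_max_left _ _) hZ)
  have hZ2 : 2 ≤ Z := le_trans (le_max_right _ _) hZ
  refine ⟨g2, ?_, g3⟩
  have hL : 0 < Real.log Z := by linarith
  apply Real.le_sqrt_of_sq_le
  rw [le_div_iff₀ hL]
  have hM : 0 < M ^ 2 + 1 := by positivity
  have h5 : (M ^ 2 + 1) * Real.log Z ≤ 4 * Z := by
    have := mul_le_mul_of_nonneg_left g4 hM.le
    calc (M ^ 2 + 1) * Real.log Z ≤ (M ^ 2 + 1) * ((4 / (M ^ 2 + 1)) * Z) := this
      _ = 4 * Z := by field_simp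
  nlinarith

/-- gap (1) -/
theorem gap1 (τ e : ℝ) (hτ : 0 < τ) (hτ1 : τ < 1 / 8) (he : 0 < e) (he7 : 7 * e = τ ^ 2) :
    -τ / (1 - 2 * τ) + (1 + e) / (1 - τ) ≤ 1 - 5 * e := by
  have h1 : 0 < 1 - 2 * τ := by linarith
  have h2 : 0 < 1 - τ := by linarith
  have h3 : (1 + e) / (1 - τ) ≤ 1 / (1 - τ) + 2 * e := by
    rw [add_div]
    have : e / (1 - τ) ≤ 2 * e := by
      rw [div_le_iff₀ h2]; nlinarith
    linarith
  have h4 : -τ / (1 - 2 * τ) + 1 / (1 - τ) ≤ 1 - τ ^ 2 := by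
    rw [div_add_div _ _ h1.ne' h2.ne', div_le_iff₀ (by positivity)]
    have h3 : 0 < τ ^ 3 := by positivity
    have h4 : 0 ≤ τ ^ 3 * (3 - 2 * τ) := mul_nonneg h3.le (by linarith)
    linarith
  linarith

/-- gap (2) -/
theorem gap2 (τ e : ℝ) (hτ : 0 < τ) (hτ1 : τ < 1 / 8) (he : 0 < e) (he7 : 7 * e = τ ^ 2) :
    τ * (1 - 4 * τ) / (1 - 2 * τ) + (1 + e) / (1 + τ) ≤ 1 - 5 * e := by
  have h1 : 0 < 1 - 2 * τ := by linarith
  have h2 : 0 < 1 + τ := by linarith
  have h3 : (1 + e) / (1 + τ) ≤ 1 / (1 + τ) + e := by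
    rw [add_div]
    have : e / (1 + τ) ≤ e := by
      rw [div_le_iff₀ h2]; nlinarith
    linarith
  have h4 : τ * (1 - 4 * τ) / (1 - 2 * τ) + 1 / (1 + τ) ≤ 1 - τ ^ 2 := by
    rw [div_add_div _ _ h1.ne' h2.ne', div_le_iff₀ (by positivity)]
    have h3 : 0 < τ ^ 3 := by positivity
    have h4 : 0 ≤ τ ^ 3 * (5 + 2 * τ) := by positivity
    linarith
  linarith

/-- **WINQ.** The window argument. -/
theorem winq0 (h1 : S_GUPQ) (h2 : S_GLOWQ) : S_WINQ := by
  intro ε c hε hε1 hc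
  obtain ⟨τ, hτd⟩ : ∃ τ : ℝ, τ = ε / 8 := ⟨_, rfl⟩
  have hετ : ε = 8 * τ := by rw [hτd]; ring
  have hτ : 0 < τ := by rw [hτd]; positivity
  have hτ1 : τ < 1 / 8 := by rw [hτd]; linarith
  obtain ⟨e, hed⟩ : ∃ e : ℝ, e = τ ^ 2 / 7 := ⟨_, rfl⟩
  have he : 0 < e := by rw [hed]; positivity
  have he7 : 7 * e = τ ^ 2 := by rw [hed]; ring
  have heτ : e ≤ τ / 56 := by nlinarith only [he7, hτ, hτ1]
  have he1 : e < 1 / 100 := by linarith
  obtain ⟨a, had⟩ : ∃ a : ℝ, a = 1 - 2 * τ := ⟨_, rfl⟩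
  have ha : 3 / 4 < a := by rw [had]; linarith
  have ha0 : 0 < a := by linarith
  have ha1 : a < 1 := by rw [had]; linarith
  obtain ⟨b, hbd⟩ : ∃ b : ℝ, b = √a := ⟨_, rfl⟩
  have hb : 0 < b := by rw [hbd]; exact Real.sqrt_pos.2 ha0
  have hbb : b * b = a := by rw [hbd]; exact Real.mul_self_sqrt ha0.le
  have hb1 : b < 1 := by nlinarith only [hbb, ha1, hb]
  have hba : a ≤ b := by nlinarith only [hbb, hb, hb1]
  obtain ⟨u1, hu1, -, hU1⟩ := gup2 h1 1 0 e one_pos le_rfl (by norm_num) he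
  obtain ⟨u3, hu3, -, hU3⟩ := gup2 h1 1 (1 / 2) e one_pos (by norm_num) le_rfl he
  obtain ⟨u4, hu4, -, hU4⟩ := gup2 h1 2 0 e two_pos le_rfl (by norm_num) he
  obtain ⟨u5, hu5, -, hU5⟩ := glow2 h2 e he (by linarith)
  obtain ⟨m, hm0, hm1, hm3, hm4, hm5, hmc, hm6⟩ : ∃ m : ℝ, 0 < m ∧ m ≤ u1 ∧ m ≤ u3 ∧ m ≤ u4 ∧ m ≤ u5 ∧
      m ≤ c ^ (1 / e) ∧ m ≤ 1 := by
    have hcp : 0 < c ^ (1 / e) := Real.rpow_pos_of_pos hc _
    refine ⟨min u1 (min u3 (min u4 (min u5 (min (c ^ (1 / e)) 1)))), ?_, ?_, ?_, ?_, ?_, ?_, ?_⟩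
    · simp only [lt_min_iff]
      exact ⟨hu1, hu3, hu4, hu5, hcp, one_pos⟩
    · exact min_le_left _ _
    · exact (min_le_right _ _).trans (min_le_left _ _)
    · exact (min_le_right _ _).trans ((min_le_right _ _).trans (min_le_left _ _))
    · exact (min_le_right _ _).trans ((min_le_right _ _).trans ((min_le_right _ _).trans
        (min_le_left _ _)))
    · exact (min_le_right _ _).trans ((min_le_right _ _).trans ((min_le_right _ _).trans
        ((min_le_right _ _).trans (min_le_left _ _))))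
    · exact (min_le_right _ _).trans ((min_le_right _ _).trans ((min_le_right _ _).trans
        ((min_le_right _ _).trans (min_le_right _ _))))
  obtain ⟨M, hMd⟩ : ∃ M : ℝ, M = 1 / m + Real.log 8 / e + 1 / τ := ⟨_, rfl⟩
  obtain ⟨Z₀, hZ₀, hZ⟩ := ev e (M / b) he
  refine ⟨Z₀, hZ₀, fun Z hZZ => ?_⟩
  obtain ⟨hL60, hMT, hLL⟩ := hZ Z hZZ
  have hZpos : 0 < Z := by linarith
  obtain ⟨L, hLd⟩ : ∃ L : ℝ, L = Real.log Z := ⟨_, rfl⟩
  obtain ⟨T, hTd⟩ : ∃ T : ℝ, T = √(4 * Z / Real.log Z) := ⟨_, rfl⟩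
  rw [← hTd] at hMT
  rw [← hLd] at hL60 hLL
  have hL0 : 0 < L := by linarith
  have hTT : T * T = 4 * Z / L := by
    rw [hTd, ← hLd]; exact Real.mul_self_sqrt (by positivity)
  have hT0 : 0 < T := by rw [hTd, ← hLd]; exact Real.sqrt_pos.2 (by positivity)
  have hTTL : T * T * L = 4 * Z := by rw [hTT]; field_simp
  obtain ⟨B, hBd⟩ : ∃ B : ℝ, B = b * T := ⟨_, rfl⟩
  have hB0 : 0 < B := by rw [hBd]; positivity
  have hBM : M ≤ B := by
    rw [hBd]; rw [div_le_iff₀ hb] at hMT; linarith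
  have hl8 : 0 < Real.log 8 := Real.log_pos (by norm_num)
  have hB1 : 1 / m ≤ B := by
    have : 0 < Real.log 8 / e := by positivity
    have : 0 < 1 / τ := by positivity
    linarith
  have hB8 : Real.log 8 ≤ e * B := by
    have : 0 < 1 / m := by positivity
    have : 0 < 1 / τ := by positivity
    have h8 : Real.log 8 / e ≤ B := by linarith
    rw [div_le_iff₀ he] at h8; linarith
  have hBτ : 1 ≤ τ * B := by
    have : 0 < Real.log 8 / e := by positivity
    have : 0 < 1 / m := by positivity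
    have h8 : 1 / τ ≤ B := by linarith
    rw [div_le_iff₀ hτ] at h8; linarith
  have hBm : 1 ≤ B * m := by rwa [div_le_iff₀ hm0] at hB1
  have hBBL : B * B * L = 4 * a * Z := by
    rw [hBd, ← hbb]; linear_combination b * b * hTTL
  obtain ⟨u, hud⟩ : ∃ u : ℝ, u = 4 / (B * L) := ⟨_, rfl⟩
  have hBL : 0 < B * L := by positivity
  have hu0 : 0 < u := by rw [hud]; positivity
  have huBL : u * (B * L) = 4 := by rw [hud]; field_simp
  have huinv : 1 / u = B * L / 4 := by rw [hud]; field_simp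
  have huZ : u * Z = B / a := by
    rw [eq_div_iff ha0.ne']
    have : B * (u * Z * a) = B * B := by
      linear_combination (-(u * B / 4)) * hBBL + (B * B / 4) * huBL
    exact mul_left_cancel₀ hB0.ne' this
  have hum : 2 * u < m := by
    have h60 : 60 ≤ m * (B * L) := by
      calc (60 : ℝ) ≤ 1 * L := by linarith
        _ ≤ B * m * L := mul_le_mul_of_nonneg_right hBm hL0.le
        _ = m * (B * L) := by ring
    have : 2 * u * (B * L) < m * (B * L) := by linarith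
    exact lt_of_mul_lt_mul_right this hBL.le
  have hu1' : u < 1 / 2 := by linarith
  -- the lower bound for `1/u`
  have hsq : √Z < B * L / 8 := by
    rw [Real.sqrt_lt' (by positivity)]
    have : (B * L / 8) ^ 2 = a * Z * L / 16 := by linear_combination (L / 64) * hBBL
    rw [this]
    have : 16 < a * L := by nlinarith only [ha, hL60]
    nlinarith only [this, hZpos]
  have hlogs : ∀ s : ℝ, 0 < s → s ≤ 2 → L / 2 ≤ Real.log (1 / (s * u)) := by
    intro s hs hs2
    have h : √Z ≤ 1 / (s * u) := by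
      refine hsq.le.trans ?_
      rw [le_div_iff₀ (by positivity)]
      calc B * L / 8 * (s * u) = s / 8 * (u * (B * L)) := by ring
        _ = s / 2 := by rw [huBL]; ring
        _ ≤ 1 := by linarith
    have h' := Real.log_le_log (Real.sqrt_pos.2 hZpos) h
    rw [Real.log_sqrt hZpos.le, ← hLd] at h'
    exact h'
  have hgen : ∀ s μ : ℝ, 0 < s → s ≤ 2 → 0 < μ →
      (1 + e) * (2 * μ) / (s * u * Real.log (1 / (s * u))) ≤ (1 + e) * μ * B / s := by
    intro s μ hs hs2 hμ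
    have h3 := hlogs s hs hs2
    rw [div_le_div_iff₀ (mul_pos (mul_pos hs hu0) (by linarith)) hs]
    have h4 : 2 ≤ B * (u * Real.log (1 / (s * u))) := by
      have : B * (u * (L / 2)) = 2 := by linarith
      rw [← this]
      exact mul_le_mul_of_nonneg_left (mul_le_mul_of_nonneg_left h3 hu0.le) hB0.le
    have h5 : 0 ≤ (1 + e) * μ * s := by positivity
    calc (1 + e) * (2 * μ) * s = (1 + e) * μ * s * 2 := by ring
      _ ≤ (1 + e) * μ * s * (B * (u * Real.log (1 / (s * u)))) := mul_le_mul_of_nonneg_left h4 h5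
      _ = (1 + e) * μ * B * (s * u * Real.log (1 / (s * u))) := by ring
  -- the main sum
  obtain ⟨F₀, hF₀, hF₀s⟩ := hU5 u hu0 (by linarith)
  have hlogu : 0 < Real.log (1 / u) := Real.log_pos (by rw [lt_div_iff₀ hu0]; linarith)
  have hG : (1 - e) * B ≤ 2 / (u * Real.log (1 / u)) := by
    rw [le_div_iff₀ (by positivity)]
    have h3 : 2 * Real.log (1 / u) ≤ L + Real.log L := by
      have h4 : (1 / u) ^ 2 ≤ Z * L := by
        have : (1 / u) ^ 2 = a * Z * L / 4 := by rw [huinv]; linear_combination (L / 16) * hBBL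
        rw [this]; nlinarith only [mul_pos hZpos hL0, ha1, ha0]
      have h5 := Real.log_le_log (by positivity) h4
      rw [Real.log_pow, Real.log_mul hZpos.ne' hL0.ne', ← hLd] at h5
      push_cast at h5
      exact h5
    have h4 : 2 * Real.log (1 / u) ≤ (1 + e) * L := by linarith
    have h5 : 0 < (1 - e) * B * u := by
      have : 0 < 1 - e := by linarith
      positivity
    have h6 : (1 - e) * B * (u * Real.log (1 / u)) ≤ (1 - e) * B * u * ((1 + e) * L / 2) := by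
      have := mul_le_mul_of_nonneg_left h4 h5.le
      linarith only [this]
    have h7 : (1 - e) * B * u * ((1 + e) * L / 2) = (1 - e) * (1 + e) * 2 := by
      linear_combination ((1 - e) * (1 + e) / 2) * huBL
    nlinarith only [h6, h7, sq_nonneg e]
  have hmain : Real.exp ((1 - 4 * e) * B) ≤ ∑ E ∈ F₀, Real.exp (-(u * tl E) - tr E) := by
    refine le_trans (Real.exp_le_exp.2 ?_) hF₀s
    have h3 : (1 - 3 * e) * 2 / (u * Real.log (1 / u)) =
        (1 - 3 * e) * (2 / (u * Real.log (1 / u))) := by ring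
    rw [h3]
    have h4 : 0 < 1 - 3 * e := by linarith
    have := mul_le_mul_of_nonneg_left hG h4.le
    refine le_trans ?_ this
    nlinarith only [hB0, mul_nonneg (sq_nonneg e) hB0.le]
  have hPC : ∀ E ∈ F₀, PC E := fun E hE => (hF₀ E hE).1
  -- the four sums
  have hτu : 0 < τ * u := mul_pos hτ hu0
  have hτu1 : τ * u ≤ u := by nlinarith only [hτ1, hu0]
  have b1 := hU1 ((1 - τ) * u) (by have : 0 < 1 - τ := by linarith
                                   positivity) (by linarith) F₀ hPC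
  have b2 := hU1 ((1 + τ) * u) (by positivity) (by linarith) F₀ hPC
  have b3 := hU3 u hu0 (by linarith) F₀ hPC
  have b4 := hU4 u hu0 (by linarith) F₀ hPC
  have c1 := hgen (1 - τ) 1 (by linarith) (by linarith) one_pos
  have c2 := hgen (1 + τ) 1 (by linarith) (by linarith) one_pos
  have c3 := hgen 1 1 one_pos (by norm_num) one_pos
  have c4 := hgen 1 2 one_pos (by norm_num) two_pos
  rw [one_mul] at c3 c4
  have hRHS0 : Real.exp ((1 - 5 * e) * B) ≤ Real.exp ((1 - 4 * e) * B) / 8 := by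
    rw [le_div_iff₀ (by norm_num), mul_comm, ← Real.exp_log (show (0:ℝ) < 8 by norm_num),
      ← Real.exp_add]
    apply Real.exp_le_exp.2
    linarith
  have d1 : Real.exp (-(τ * (u * Z))) *
      ∑ E ∈ F₀, 1 ^ om E * Real.exp (-((1 - τ) * u * tl E) - (1 - 0 * ((1 - τ) * u)) * tr E) ≤
      Real.exp ((1 - 5 * e) * B) := by
    refine (mul_le_mul_of_nonneg_left (b1.trans (Real.exp_le_exp.2 c1)) (Real.exp_pos _).le).trans ?_
    rw [← Real.exp_add, huZ]
    apply Real.exp_le_exp.2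
    have g := mul_le_mul_of_nonneg_right (gap1 τ e hτ hτ1 he he7) hB0.le
    rw [← had] at g
    calc -(τ * (B / a)) + (1 + e) * 1 * B / (1 - τ) = (-τ / a + (1 + e) / (1 - τ)) * B := by ring
      _ ≤ _ := g
  have d2 : Real.exp (τ * (u * ((1 - 4 * τ) * Z))) *
      ∑ E ∈ F₀, 1 ^ om E * Real.exp (-((1 + τ) * u * tl E) - (1 - 0 * ((1 + τ) * u)) * tr E) ≤
      Real.exp ((1 - 5 * e) * B) := by
    refine (mul_le_mul_of_nonneg_left (b2.trans (Real.exp_le_exp.2 c2)) (Real.exp_pos _).le).trans ?_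
    rw [← Real.exp_add]
    apply Real.exp_le_exp.2
    have g := mul_le_mul_of_nonneg_right (gap2 τ e hτ hτ1 he he7) hB0.le
    rw [← had] at g
    calc τ * (u * ((1 - 4 * τ) * Z)) + (1 + e) * 1 * B / (1 + τ)
        = τ * (1 - 4 * τ) * (u * Z) + (1 + e) * B / (1 + τ) := by ring
      _ = (τ * (1 - 4 * τ) / a + (1 + e) / (1 + τ)) * B := by rw [huZ]; ring
      _ ≤ _ := g
  have d3 : Real.exp (-(u / 2 * (ε * Z))) *
      ∑ E ∈ F₀, 1 ^ om E * Real.exp (-(u * tl E) - (1 - 1 / 2 * u) * tr E) ≤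
      Real.exp ((1 - 5 * e) * B) := by
    refine (mul_le_mul_of_nonneg_left (b3.trans (Real.exp_le_exp.2 c3)) (Real.exp_pos _).le).trans ?_
    rw [← Real.exp_add]
    apply Real.exp_le_exp.2
    have h5 : -(u / 2 * (ε * Z)) = -(4 * τ) * (B / a) := by rw [← huZ, hετ]; ring
    rw [h5]
    have h6 : B ≤ B / a := by rw [le_div_iff₀ ha0]; nlinarith only [hB0, ha1]
    have h7 : 4 * τ * B ≤ 4 * τ * (B / a) := mul_le_mul_of_nonneg_left h6 (by linarith)
    have h8 : 6 * e ≤ 4 * τ := by linarith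
    have h9 := mul_le_mul_of_nonneg_right h8 hB0.le
    have : (1 + e) * 1 * B / 1 = (1 + e) * B := by ring
    rw [this]
    linarith only [h7, h9]
  have d4 : Real.exp (-(Real.log 2 * (1 / u))) *
      ∑ E ∈ F₀, 2 ^ om E * Real.exp (-(u * tl E) - (1 - 0 * u) * tr E) ≤
      Real.exp ((1 - 5 * e) * B) := by
    refine (mul_le_mul_of_nonneg_left (b4.trans (Real.exp_le_exp.2 c4)) (Real.exp_pos _).le).trans ?_
    rw [← Real.exp_add]
    apply Real.exp_le_exp.2
    rw [huinv]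
    have h5 : 0.6931471803 < Real.log 2 := Real.log_two_gt_d9
    have h6 : B * 10 ≤ B * L / 4 := by nlinarith only [hB0, hL60]
    have h7 : 0.69 * (B * 10) ≤ Real.log 2 * (B * L / 4) := by
      apply mul_le_mul (by linarith) h6 (by positivity) (by linarith)
    have : (1 + e) * 2 * B / 1 = 2 * (1 + e) * B := by ring
    rw [this]
    have h9 : e * B ≤ 1 / 100 * B := mul_le_mul_of_nonneg_right he1.le hB0.le
    linarith only [h7, h9, hB0]
  classical
  obtain ⟨F, hFd⟩ : ∃ F : Finset (ℕ × ℕ), F = F₀.filter (fun E => tl E ≤ Z ∧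
    (1 - 4 * τ) * Z ≤ tl E ∧ tr E ≤ ε * Z ∧ (om E : ℝ) ≤ 1 / u) := ⟨_, rfl⟩
  refine ⟨F, ?_, ?_⟩
  · intro E hE
    rw [hFd, mem_filter] at hE
    obtain ⟨hE0, hE1, hE2, hE3, hE4⟩ := hE
    obtain ⟨⟨hP1, hP2, hP3⟩, hN, hN5⟩ := hF₀ E hE0
    refine ⟨hP1, hP2, hP3, ?_, hN5, hE1, hE3, ?_⟩
    · intro v hv
      refine lt_of_lt_of_le ?_ (hN v hv)
      have h5 : √Z < 1 / u := by rw [huinv]; linarith
      refine lt_of_lt_of_le h5 ?_
      rw [one_div, ← Real.rpow_neg_one]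
      apply Real.rpow_le_rpow_of_exponent_ge hu0 (by linarith)
      linarith
    · have h5 : ∑ p ∈ (E.1 * E.2).primeFactors, (1 : ℝ) / p ≤ om E * u ^ (1 + e) := by
        unfold om
        rw [← nsmul_eq_mul]
        apply Finset.sum_le_card_nsmul
        intro v hv
        have h6 := hN v hv
        have h7 : 0 < u ^ (-(1 + e)) := Real.rpow_pos_of_pos hu0 _
        have h8 := inv_anti₀ h7 h6
        rw [one_div]
        rwa [← Real.rpow_neg hu0.le, neg_neg] at h8
      have h6 : (om E : ℝ) * u ^ (1 + e) ≤ 1 / u * u ^ (1 + e) :=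
        mul_le_mul_of_nonneg_right hE4 (Real.rpow_pos_of_pos hu0 _).le
      have h7 : 1 / u * u ^ (1 + e) = u ^ e := by
        rw [Real.rpow_add hu0, Real.rpow_one]; field_simp
      have h8 : u ^ e ≤ c := by
        have h9 : u ≤ c ^ (1 / e) := by linarith
        have h10 := Real.rpow_le_rpow hu0.le h9 he.le
        rwa [← Real.rpow_mul hc.le, one_div_mul_cancel he.ne', Real.rpow_one] at h10
      linarith
  · -- pointwise bound
    have hpt : ∀ E ∈ F₀, Real.exp (-(u * tl E) - tr E) ≤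
        (if E ∈ F then Real.exp (-(u * tl E) - tr E) else 0) +
        (Real.exp (-(τ * (u * Z))) *
          (1 ^ om E * Real.exp (-((1 - τ) * u * tl E) - (1 - 0 * ((1 - τ) * u)) * tr E)) +
        Real.exp (τ * (u * ((1 - 4 * τ) * Z))) *
          (1 ^ om E * Real.exp (-((1 + τ) * u * tl E) - (1 - 0 * ((1 + τ) * u)) * tr E)) +
        Real.exp (-(u / 2 * (ε * Z))) *
          (1 ^ om E * Real.exp (-(u * tl E) - (1 - 1 / 2 * u) * tr E)) +
        Real.exp (-(Real.log 2 * (1 / u))) *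
          (2 ^ om E * Real.exp (-(u * tl E) - (1 - 0 * u) * tr E))) := by
      intro E hE
      have p1 : 0 ≤ Real.exp (-(τ * (u * Z))) *
          (1 ^ om E * Real.exp (-((1 - τ) * u * tl E) - (1 - 0 * ((1 - τ) * u)) * tr E)) := by
        positivity
      have p2 : 0 ≤ Real.exp (τ * (u * ((1 - 4 * τ) * Z))) *
          (1 ^ om E * Real.exp (-((1 + τ) * u * tl E) - (1 - 0 * ((1 + τ) * u)) * tr E)) := by
        positivity
      have p3 : 0 ≤ Real.exp (-(u / 2 * (ε * Z))) *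
          (1 ^ om E * Real.exp (-(u * tl E) - (1 - 1 / 2 * u) * tr E)) := by positivity
      have p4 : 0 ≤ Real.exp (-(Real.log 2 * (1 / u))) *
          (2 ^ om E * Real.exp (-(u * tl E) - (1 - 0 * u) * tr E)) := by positivity
      by_cases hEF : E ∈ F
      · rw [if_pos hEF]; linarith
      rw [if_neg hEF]
      rw [hFd, mem_filter] at hEF
      simp only [not_and, not_le] at hEF
      have hEF := hEF hE
      by_cases q1 : Z < tl E
      · have : Real.exp (-(u * tl E) - tr E) ≤ Real.exp (-(τ * (u * Z))) *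
          (1 ^ om E * Real.exp (-((1 - τ) * u * tl E) - (1 - 0 * ((1 - τ) * u)) * tr E)) := by
          rw [one_pow, one_mul, ← Real.exp_add]
          apply Real.exp_le_exp.2
          linarith only [mul_le_mul_of_nonneg_left q1.le (mul_pos hτ hu0).le]
        linarith
      by_cases q2 : tl E < (1 - 4 * τ) * Z
      · have : Real.exp (-(u * tl E) - tr E) ≤ Real.exp (τ * (u * ((1 - 4 * τ) * Z))) *
          (1 ^ om E * Real.exp (-((1 + τ) * u * tl E) - (1 - 0 * ((1 + τ) * u)) * tr E)) := by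
          rw [one_pow, one_mul, ← Real.exp_add]
          apply Real.exp_le_exp.2
          linarith only [mul_le_mul_of_nonneg_left q2.le (mul_pos hτ hu0).le]
        linarith
      by_cases q3 : ε * Z < tr E
      · have : Real.exp (-(u * tl E) - tr E) ≤ Real.exp (-(u / 2 * (ε * Z))) *
          (1 ^ om E * Real.exp (-(u * tl E) - (1 - 1 / 2 * u) * tr E)) := by
          rw [one_pow, one_mul, ← Real.exp_add]
          apply Real.exp_le_exp.2
          linarith only [mul_le_mul_of_nonneg_left q3.le hu0.le]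
        linarith
      have q4 := hEF (not_lt.1 q1) (not_lt.1 q2) (not_lt.1 q3)
      have : Real.exp (-(u * tl E) - tr E) ≤ Real.exp (-(Real.log 2 * (1 / u))) *
          (2 ^ om E * Real.exp (-(u * tl E) - (1 - 0 * u) * tr E)) := by
        have h2 : (2:ℝ) ^ om E = Real.exp (Real.log 2 * om E) := by
          rw [mul_comm, Real.exp_nat_mul, Real.exp_log two_pos]
        rw [h2, ← Real.exp_add, ← Real.exp_add]
        apply Real.exp_le_exp.2
        have : Real.log 2 * (1 / u) ≤ Real.log 2 * om E :=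
          mul_le_mul_of_nonneg_left q4.le (Real.log_pos one_lt_two).le
        linarith
      linarith
    have hsum := Finset.sum_le_sum hpt
    rw [Finset.sum_add_distrib, Finset.sum_add_distrib, Finset.sum_add_distrib,
      Finset.sum_add_distrib, ← Finset.mul_sum, ← Finset.mul_sum, ← Finset.mul_sum,
      ← Finset.mul_sum] at hsum
    have hFsum : ∑ E ∈ F₀, (if E ∈ F then Real.exp (-(u * tl E) - tr E) else 0) =
        ∑ E ∈ F, Real.exp (-(u * tl E) - tr E) := by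
      rw [← Finset.sum_filter]
      congr 1
      rw [hFd]
      ext E
      simp only [mem_filter]
      tauto
    rw [hFsum] at hsum
    have hW : Real.exp ((1 - 4 * e) * B) / 2 ≤ ∑ E ∈ F, Real.exp (-(u * tl E) - tr E) := by
      linarith
    have hlow : Real.exp (u * ((1 - 4 * τ) * Z)) * ∑ E ∈ F, Real.exp (-(u * tl E) - tr E) ≤
        ∑ E ∈ F, (1 : ℝ) / ((∏ p ∈ (E.1 * E.2).primeFactors, p : ℕ) : ℝ) := by
      rw [Finset.mul_sum]
      apply Finset.sum_le_sum
      intro E hE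
      have hr : (0 : ℝ) < ((∏ p ∈ (E.1 * E.2).primeFactors, p : ℕ) : ℝ) := by
        exact_mod_cast Finset.prod_pos fun p hp => (Nat.prime_of_mem_primeFactors hp).pos
      have hr2 : (1 : ℝ) / ((∏ p ∈ (E.1 * E.2).primeFactors, p : ℕ) : ℝ) = Real.exp (-tr E) := by
        unfold tr
        rw [Real.exp_neg, Real.exp_log hr, one_div]
      rw [hr2]
      rw [hFd, mem_filter] at hE
      rw [← Real.exp_add]
      apply Real.exp_le_exp.2
      linarith only [mul_le_mul_of_nonneg_left hE.2.2.1 hu0.le]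
    refine le_trans ?_ hlow
    refine le_trans ?_ (mul_le_mul_of_nonneg_left hW (Real.exp_pos _).le)
    have h24 : √(16 * Z / Real.log Z) = 2 * (B / b) := by
      rw [← hLd]
      have : 16 * Z / L = (2 * T) ^ 2 := by
        have : (2 * T) ^ 2 = 4 * (T * T) := by ring
        rw [this, hTT]; ring
      rw [this, Real.sqrt_sq (by positivity), hBd]
      field_simp
    rw [h24]
    have h2 : Real.exp ((1 - 4 * e) * B) / 2 = Real.exp ((1 - 4 * e) * B - Real.log 2) := by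
      rw [Real.exp_sub, Real.exp_log two_pos]
    rw [h2, ← Real.exp_add]
    apply Real.exp_le_exp.2
    have h5 : u * ((1 - 4 * τ) * Z) = (1 - 4 * τ) * (B / a) := by rw [← huZ]; ring
    rw [h5]
    obtain ⟨R, hRd⟩ : ∃ R : ℝ, R = B / b := ⟨_, rfl⟩
    have hR0 : 0 < R := by rw [hRd]; positivity
    have hRB : B = R * b := by rw [hRd]; field_simp
    have hRB' : B ≤ R := by rw [hRB]; nlinarith only [hR0, hb1]
    have hBa : R ≤ B / a := by
      rw [hRB, ← hbb, le_div_iff₀ (by positivity)]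
      nlinarith only [mul_pos hR0 hb, hb1, hb]
    rw [← hRd]
    have h6 : (1 - 4 * τ) * R ≤ (1 - 4 * τ) * (B / a) :=
      mul_le_mul_of_nonneg_left hBa (by linarith)
    have h7 : (1 - 4 * e) * (R * a) ≤ (1 - 4 * e) * B := by
      apply mul_le_mul_of_nonneg_left _ (by linarith)
      rw [hRB]; exact mul_le_mul_of_nonneg_left hba hR0.le
    have h8 : Real.log 2 < 0.6931471808 := Real.log_two_lt_d9
    have h9 : 1 ≤ τ * R := hBτ.trans (mul_le_mul_of_nonneg_left hRB' hτ.le)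
    have h10 : e * R ≤ τ * R / 56 := by
      have := mul_le_mul_of_nonneg_right heτ hR0.le
      linarith
    have h11 : (1 - 8 * τ) * (2 * R) + Real.log 2 ≤ (1 - 4 * τ) * R + (1 - 4 * e) * (R * a) := by
      rw [had]
      have h12 : 0 ≤ e * (τ * R) := by positivity
      linarith only [h12, h10, h9, h8]
    rw [hετ]
    linarith

end Pool.Agent.N407.SZW

namespace Pool.Agent.N407.SZ

open Pool.Agent.N906.SZ

/-- **WINQ.** The window argument. -/
theorem winq (h1 : S_GUPQ) (h2 : S_GLOWQ) : S_WINQ := Pool.Agent.N407.SZW.winq0 h1 h2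

end Pool.Agent.N407.SZ

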